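import Pool.Agent.Helper76.CV.Defs

/-!
# Project CV (MP_eec6f5_gt): goals

Every goal is a `Prop`; the docstring gives the complete proof and the goals which may be assumed as hypotheses.
-/

open scoped ContDiff
open Filter Topology

namespace Pool.Agent.Helper76.CV

variable {r : ℕ}

/-- `w = 1 + 4 y₀ / 5`. -/
noncomputable def wr (y : E (r + 3)) : ℝ := 1 + 4 / 5 * y 0

/-- The first unit vector. -/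
noncomputable def e0 : E (r + 3) := EuclideanSpace.single 0 1

/-- `λ`, `σ = λ W'`, `σ₁ = 13 (σ² + W'²) + λ W''` at the distance `v` from the axis of the tunnel. -/
noncomputable def lam (v : ℝ) : ℝ := Real.tan (13 * W (4 / 25 - v))

noncomputable def sg (v : ℝ) : ℝ := lam v * deriv W (4 / 25 - v)

noncomputable def sg1 (v : ℝ) : ℝ :=
  13 * (sg v ^ 2 + deriv W (4 / 25 - v) ^ 2) + lam v * deriv (deriv W) (4 / 25 - v)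

/-! ## The conditions on the data (`c = C`, `d = C'/2`, `c2 = C''/2`) -/

def FlatOK (c d c2 : ℝ) : Prop := 0 ≤ c ∧ c ≤ 1 / 10 ^ 6 ∧ |d| ≤ 1 / 10 ^ 6 ∧ |c2| ≤ 1 / 10 ^ 6

def CapOK (c d c2 : ℝ) : Prop :=
  0 ≤ c ∧ c ≤ 9424 / 10000 ∧ -(35 / 2) ≤ c2 ∧ c2 ≤ 86 / 10 ∧ d ^ 2 ≤ 36 / 10 ∧
  ((12725 / 10000 * (c - 95 / 1000) ≤ d ^ 2 ∧ (c2 ≤ 4 ∨ 12725 / 10000 * (c + 425 / 10000) ≤ d ^ 2)) ∨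
    (9 / 10 ≤ c ∧ 38 / 100 ≤ d ^ 2 ∧ c2 ≤ 0 ∧ c2 ^ 2 ≤ 470 * d ^ 2)) ∧
  (c2 ^ 2 ≤ 50 * d ^ 2 ∨ (6 / 10 ≤ c ∧ c2 ^ 2 ≤ 500 * d ^ 2))

def NeckOK (c d c2 : ℝ) : Prop :=
  9424 / 10000 ≤ c ∧ c ≤ 1 ∧ 0 < 1 - c + d ^ 2 / (1421 / 1000) ∧
  |c2| * (1 - c) + 653 / 1000 * (1 - c + d ^ 2 / (1421 / 1000)) ≤
    254 / 10 * ((1 - c + d ^ 2 / (1421 / 1000)) * √(1 - c + d ^ 2 / (1421 / 1000)))

/-- `α`, `β` are constant near `t`. -/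
def LocConst (D : Dat r) (t : ℝ) : Prop :=
  (∃ A : Fin r → Bool, ∀ᶠ u in 𝓝 t, ∀ j, D.α j u = if A j then 1 else 0) ∧
    ((∀ᶠ u in 𝓝 t, D.β u = 0) ∨ (∀ᶠ u in 𝓝 t, D.β u = 1))

def Flat (D : Dat r) (t : ℝ) : Prop :=
  FlatOK (D.C t) (deriv D.C t / 2) (deriv (deriv D.C) t / 2) ∧ |deriv D.θ t| ≤ 1 / 10 ^ 6 ∧
    |deriv (deriv D.θ) t| ≤ 1 / 10 ^ 6 ∧ LocConst D t

def Cap (D : Dat r) (t : ℝ) : Prop :=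
  CapOK (D.C t) (deriv D.C t / 2) (deriv (deriv D.C) t / 2) ∧
    (∀ᶠ u in 𝓝 t, Real.cos (D.θ u) = -1 ∧ Real.sin (D.θ u) = 0) ∧ LocConst D t

def Neck (D : Dat r) (t : ℝ) : Prop := NeckOK (D.C t) (deriv D.C t / 2) (deriv (deriv D.C) t / 2)

/-- The conditions on the data. -/
structure Good (D : Dat r) : Prop where
  sC : ContDiff ℝ ∞ D.C
  sθ : ContDiff ℝ ∞ D.θ
  sα : ∀ j, ContDiff ℝ ∞ (D.α j)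
  sβ : ContDiff ℝ ∞ D.β
  nC : ∀ t, 0 ≤ D.C t
  α0 : ∀ j t, 0 ≤ D.α j t
  α1 : ∀ j t, D.α j t ≤ 1
  β0 : ∀ t, 0 ≤ D.β t
  β1 : ∀ t, D.β t ≤ 1
  bd : ∃ R, ∀ t, D.C t ≤ 1 → |t| ≤ R
  cas : ∀ t, D.C t ≤ 1 → Flat D t ∨ Cap D t ∨ Neck D t

/-! ## Local forms -/

/-- Near `p` the hypersurface is in the graph `s = z x`; the differential of `H` at `p`. -/
def Lf (D : Dat r) (p : V r) (z : ℝ × E (r + 3) → ℝ) : Prop :=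
  ContDiffAt ℝ ∞ z p.1 ∧ p.2 = z p.1 ∧ (∀ᶠ p' in 𝓝 p, p' ∈ X D → p'.2 = z p'.1) ∧
    ∀ ξ : V r, fderiv ℝ (H D) p ξ =
      (-(Real.sin p.2 * ξ.2) + 13 / 2 * Real.exp (-(13 / 2 * U D p.1)) * fderiv ℝ (U D) p.1 ξ.1,
        ξ.2 - fderiv ℝ z p.1 ξ.1)

/-- The tunnel `{‖P y - a t‖ < 4/25}` at the point `x`. -/
structure TP (D : Dat r) (x : ℝ × E (r + 3)) (P : E (r + 3) →L[ℝ] E (r + 3)) (a : ℝ → E (r + 3)) :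
    Prop where
  sym : ∀ u v, inner ℝ (P u) v = inner ℝ u (P v)
  idem : ∀ u, P (P u) = P u
  Pa : ∀ t, P (a t) = a t
  sm : ContDiff ℝ ∞ a
  na : ∀ t, ‖a t‖ = 2 / 5
  y0 : |x.2 0| ≤ 2 / 5 + ‖P x.2 - a x.1‖
  cas : (FlatOK (D.C x.1) (deriv D.C x.1 / 2) (deriv (deriv D.C) x.1 / 2) ∧
      ‖deriv a x.1‖ ≤ 1 / 10 ^ 6 ∧ ‖deriv (deriv a) x.1‖ ≤ 1 / 10 ^ 6) ∨
    (CapOK (D.C x.1) (deriv D.C x.1 / 2) (deriv (deriv D.C) x.1 / 2) ∧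
      deriv a x.1 = 0 ∧ deriv (deriv a) x.1 = 0 ∧ |x.2 0| ≤ ‖P x.2 - a x.1‖)

/-- The two local forms. -/
def LocForm (D : Dat r) (p : V r) : Prop :=
  ∃ z : ℝ × E (r + 3) → ℝ, Lf D p z ∧
    ((∀ᶠ x in 𝓝 p.1, z x = 0) ∨
      ∃ (P : E (r + 3) →L[ℝ] E (r + 3)) (a : ℝ → E (r + 3)) (e : ℝ), TP D p.1 P a ∧ (e = 1 ∨ e = -1) ∧
        ∀ᶠ x in 𝓝 p.1, z x = e * Z (‖P x.2 - a x.1‖ ^ 2))

/-- The normal form at `p`: `(n, m)` is a normal vector of the wrapped hypersurface, and the curvature is at most `400/9`. -/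
def NF (D : Dat r) (p : V r) : Prop :=
  ∃ (n : E (r + 3)) (m κ : ℝ) (L : (ℝ × E (r + 3)) →L[ℝ] ℝ), 0 < ‖n‖ ^ 2 + m ^ 2 ∧ κ ≠ 0 ∧
    (∀ ξ : V r, fderiv ℝ (H D) p ξ =
      (κ * (inner ℝ n ξ.1.2 + m * (wr p.1.2 * ξ.1.1)) - Real.sin p.2 * (ξ.2 - L ξ.1), ξ.2 - L ξ.1)) ∧
    ∀ (T : ℝ → ℝ) (Y : ℝ → E (r + 3)) (s : ℝ → ℝ) (u : ℝ), ContDiffAt ℝ 2 T u → ContDiffAt ℝ 2 Y u →
      ContDiffAt ℝ 2 s u → (∀ᶠ u' in 𝓝 u, ((T u', Y u'), s u') ∈ X D) → ((T u, Y u), s u) = p →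
      |inner ℝ n (deriv (deriv Y) u - (4 / 5 * wr p.1.2 * deriv T u ^ 2) • e0) +
          m * (wr p.1.2 * deriv (deriv T) u + 8 / 5 * deriv T u * deriv Y u 0)| ≤
        400 / 9 * √(‖n‖ ^ 2 + m ^ 2) * (‖deriv Y u‖ ^ 2 + (wr p.1.2 * deriv T u) ^ 2)

/-! ## The function `W` -/

/-- Goal WF1 (0.6 h). `W` is smooth (`expNegInvGlue` is smooth: `expNegInvGlue.contDiff`), `W = 0` on `w ≤ 0`, so `W' = W'' = 0` for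
`w < 0` and, by continuity of `W'`, `W''`, also at `w = 0`. For `w > 0`: `W = w exp(-x)`, `x = 1/(1000 w)`, `dx/dw = -1000 x²`,
so `W' = exp(-x)(1 + x)`, `W'' = 1000 x³ exp(-x)`. -/
def WF1 : Prop :=
  ContDiff ℝ ∞ W ∧ (∀ w, 0 ≤ W w) ∧ (∀ w ≤ 0, W w = 0 ∧ deriv W w = 0 ∧ deriv (deriv W) w = 0) ∧
    ∀ w, 0 < w → W w = w * Real.exp (-(1 / (1000 * w))) ∧
      deriv W w = Real.exp (-(1 / (1000 * w))) * (1 + 1 / (1000 * w)) ∧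
      deriv (deriv W) w = 1000 * (1 / (1000 * w)) ^ 3 * Real.exp (-(1 / (1000 * w)))

/-- Goal WF2 (1 h; assume WF1). Put `w = 4/25 - v > 0`, `x = 1/(1000 w)`, `z = 13 W w ∈ [0, π/2)`, `λ = tan z ≥ 0`; `0 ≤ W' ≤ 1`
(`(1 + x) exp(-x) ≤ 1`), `W'' ≥ 0`, so `σ, σ₁ ≥ 0`. If `w ≤ 1/20`: `z ≤ 13/20`, `λ ≤ 117/100 z` (`tan z / z` is increasing; or
`cos z ≥ 1 - z²/2`, `sin z ≤ z`, hence `tan z ≤ z/(1 - z²/2)`: for `z ≤ 13 w exp(-x)`, this gives `tan z ≤ 127/100 z`, which is also enough),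
so `λ W'' ≤ 127/100 * 13 * w exp(-x) * 1000 x³ exp(-x) = 127/100 * 13 x² exp(-2x)` (as `1000 w x = 1`) and
`13 W'² + λ W'' ≤ 13 exp(-2x) (1 + 2x + 227/100 x²) ≤ 13.1`, because `exp(2x) ≥ 1 + 2x + 2x² + 4/3 x³` and
`27/100 x² ≤ 4/3 x³ + 1/200` for `x ≥ 0` (the maximum of `0.27 x² - 4/3 x³` is `0.00164`). If `w ≥ 1/20`: `x ≤ 1/50`, `W'' ≤ 1/125`, `W' ≥ 99/100`,
`13 W'² ≤ 13`, `λ W'' ≤ λ/125 ≤ (100/99) σ/125 ≤ (1 + σ²)/10`. -/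
def WF2 : Prop :=
  ∀ v : ℝ, v < 4 / 25 → 13 * W (4 / 25 - v) < Real.pi / 2 →
    0 ≤ sg v ∧ 0 ≤ sg1 v ∧ sg1 v ≤ 131 / 10 * (1 + sg v ^ 2)

/-- Goal WF3 (1 h; assume WF1). `w = 4/25 - v`. `W` is increasing. `v > 38/1000`: if not, `w ≥ 61/500`, `13 W w ≥ 13 (61/500) exp(-1/122) >
π/2` (`exp(-1/122) ≥ 1 - 1/122`, so the left side is `≥ 1.5729`, and `π < 3.1416`). If `v < 6/100`: `w > 1/10`,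
`z = 13 W w ≥ 13/10 * exp(-1/100) ≥ 1.287`, `tan z = 1/tan(π/2 - z)`, `π/2 - z ≤ 0.2838`, `tan(0.2838) ≤ 0.2958` (`sin t ≤ t`,
`cos t ≥ 1 - t²/2 ≥ 0.9597`), so `λ ≥ 3.38`, `W' ≥ (1 + x)(1 - x) ≥ 1 - 1/10000` (`x ≤ 1/100`), `σ ≥ 3.3`. -/
def WF3 : Prop :=
  ∀ v : ℝ, v < 4 / 25 → 13 * W (4 / 25 - v) < Real.pi / 2 →
    38 / 1000 < v ∧ (v < 6 / 100 → 33 / 10 ≤ sg v)

/-- Goal WF4 (0.7 h; assume WF1). `w = 4/25 - v`, `x = 1/(1000 w)`, `z = 13 W w`, `λ = tan z ≥ 0`. If `w ≥ 1/100`: `x ≤ 1/10`,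
`W' ≥ 1 - x² ≥ 99/100`; more precisely `W' = exp(-x)(1 + x) ≥ (1 - x + x²/2 - x³/6)(1 + x) ≥ 1 - x²/2 ≥ 0.995` so `σ² ≥ 0.99 λ²`
and `13 * 0.078 * 0.99 ≥ 1`. If `w < 1/100`: `z ≤ 13/100`, `λ ≤ z/(1 - z²/2) ≤ 0.1312`, `λ² ≤ 0.0173 ≤ 13 * 0.0015`. -/
def WF4 : Prop :=
  ∀ v : ℝ, v < 4 / 25 → 13 * W (4 / 25 - v) < Real.pi / 2 →
    lam v ^ 2 ≤ 13 * (78 / 1000 * sg v ^ 2 + 15 / 10000)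

/-- Goal UBQ (0.3 h). `cos z > 0`; `exp(13 U) = 1/cos² z = 1 + tan² z ≤ exp(tan² z)`. -/
def UBQ : Prop := ∀ z u : ℝ, Real.cos z = Real.exp (-(13 / 2 * u)) → 13 * u ≤ Real.tan z ^ 2

/-! ## The equations -/

/-- Goal ZP (0.5 h; assume WF1). `√(q + 10⁻⁶)` is smooth at `q ≥ 0`. `0 ≤ W w ≤ w` for `w ≥ 0` and `W w = 0` for `w ≤ 0`, so `0 ≤ Z q ≤ 13 * 4/25`. If
`q ≥ (4/25)²` then `√(q + 10⁻⁶) > 4/25`, hence `W (4/25 - √(q' + 10⁻⁶)) = 0` for `q'` near `q`. -/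
def ZP : Prop :=
  (∀ q, 0 ≤ q → ContDiffAt ℝ ∞ Z q) ∧ (∀ q, 0 ≤ Z q ∧ Z q ≤ 52 / 25) ∧
    ∀ q, (4 / 25 : ℝ) ^ 2 ≤ q → ∀ᶠ q' in 𝓝 q, Z q' = 0

/-- Goal KAP (0.2 h). `Real.smoothTransition`. -/
def KAP : Prop :=
  ContDiff ℝ ∞ kap ∧ (∀ s, 0 ≤ kap s ∧ kap s ≤ 1) ∧ (∀ s, 0 ≤ s → kap s = 1) ∧ ∀ s, s ≤ -(2 / 5) → kap s = 0

/-- Goal SMH (0.7 h; assume ZP, KAP). `qA, qB ≥ 0` since `0 ≤ α ≤ 1`, so `Z` is smooth at `qA x`, `qB x`. -/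
def SMH : Prop :=
  ∀ (r : ℕ) (D : Dat r), Good D → ContDiff ℝ ∞ (ZA D) ∧ ContDiff ℝ ∞ (ZB D) ∧ ContDiff ℝ ∞ (U D) ∧
    ContDiff ℝ ∞ (H D)

/-- Goal XB (0.6 h; assume ZP, KAP). `cos s = exp(-13/2 U) ≤ 1` gives `U ≥ 0`, so `‖y‖² + C t ≤ 1`. If `s ≥ 0` then `kap s = 1` and
`s = ZA - kap(-s) ZB ≤ ZA ≤ 52/25`; if `s ≤ 0` then `kap(-s) = 1` and `-s = ZB - kap(s) ZA ≤ ZB ≤ 52/25` (`0 ≤ β ≤ 1`). As `cos s > 0` and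
`|s| ≤ 52/25 < 3π/2`: `|s| < π/2`. -/
def XB : Prop :=
  ∀ (r : ℕ) (D : Dat r) (p : V r), Good D → p ∈ X D →
    Real.cos p.2 = Real.exp (-(13 / 2 * U D p.1)) ∧ 0 ≤ U D p.1 ∧ ‖p.1.2‖ ≤ 1 ∧ D.C p.1.1 ≤ 1 ∧
      |p.2| ≤ 52 / 25 ∧ |p.2| < Real.pi / 2

/-- Goal CMP (0.5 h; assume SMH, XB). `X D = H⁻¹(0)` is closed, and bounded by XB and `Good.bd`. -/
def CMP : Prop := ∀ (r : ℕ) (D : Dat r), Good D → IsCompact (X D)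

/-- Goal DISJ (1.2 h). Put `SA = Σ_{A j} y_{j+3}²`, `SB = Σ_{¬ A j} y_{j+3}²`, `b = (12 y1 + 5 y2)/13 - 2/5`; `q = 0.0256 = 0.16²`. The first inequality gives
`|√(y0² + y1²) - 2/5| ≤ 0.16`, so `0.0576 ≤ y0² + y1² ≤ 0.3136` (in squares: with `k = y1 cos θ + y0 sin θ`, `y0² + y1² - 4/5 k + 0.16 ≤ q`
and `k² ≤ y0² + y1²`), and `SA ≤ q`. The second gives `b² + y0² + SB ≤ q`, `|b| ≤ 0.16`. So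
`y1² ≥ 0.0576 - y0² ≥ 0.032 + b²`.
If `y1 < 0`: `y1 ≤ -√(0.032 + b²)`, `5 y2 = 5.2 + 13 b - 12 y1 ≥ 5.2 + 13 b + 12 √(0.032 + b²) ≥ 6` (for `|b| ≤ 0.16`: `12 √(0.032 + b²) ≥ 0.8 - 13 b`
follows from `144 (0.032 + b²) ≥ (0.8 - 13 b)²` i.e. `3.968 + 20.8 b - 25 b² ≥ 0`), so `y2 ≥ 1.2`, contradiction with `‖y‖ ≤ 1`.
In particular `cos θ = -1, sin θ = 0` is impossible: `(y1 + 2/5)² ≤ q` gives `y1 ≤ -0.24`.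
If `y1 ≥ 0`: `y1 ≥ √(0.032 + b²)`, `5 y2 = 5.2 + 13 b - 12 y1 ≤ 4.4`, since `12 √(0.032 + b²) ≥ 0.8 + 13 b`
(`3.968 - 20.8 b - 25 b² ≥ 0`): `y2 ≤ 0.88`; `y1 ≤ 0.56`, `b ≥ -0.16` give `y2 ≥ -0.72`; `12 y1 + 5 y2 ≤ 7.28`, `12 y1 + 5 y2 ≥ 3.12`. So
`y1² + y2² ≤ 0.832` (if `y2 ≤ 0`: `y1 ≤ 0.56`, `y2² ≤ 0.5184`; if `y2 ≥ 0`: `y1 ≤ (7.28 - 5 y2)/12` and the convex function
`((7.28 - 5 y2)/12)² + y2²` is `≤ 0.832` for `y2 = 0` and `y2 = 0.88`), and `‖y‖² = y1² + y2² + y0² + SA + SB ≤ 0.832 + 2 q`. -/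
def DISJ : Prop :=
  ∀ (r : ℕ) (A : Fin r → Bool) (θ : ℝ) (y : E (r + 3)), ‖y‖ ≤ 1 →
    (y 1 - 2 / 5 * Real.cos θ) ^ 2 + (y 0 - 2 / 5 * Real.sin θ) ^ 2 +
      ∑ j : Fin r, (if A j then (1 : ℝ) else 0) * (y j.succ.succ.succ) ^ 2 ≤ (4 / 25) ^ 2 →
    ((12 * y 1 + 5 * y 2) / 13 - 2 / 5) ^ 2 + (y 0) ^ 2 +
      ∑ j : Fin r, (1 - (if A j then (1 : ℝ) else 0)) * (y j.succ.succ.succ) ^ 2 ≤ (4 / 25) ^ 2 →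
    ‖y‖ ^ 2 ≤ 19 / 20 ∧ ¬ (Real.cos θ = -1 ∧ Real.sin θ = 0)

/-- Goal PRA (1 h). `P y` has the coordinates `y0, y1, 0, (y_{j+3} if A j, else 0)`, `a t = 2/5 (sin θ e0 + cos θ e1)`,
`a' = 2/5 θ' (cos θ e0 - sin θ e1)`, `a'' = 2/5 θ'' (cos θ e0 - sin θ e1) - 2/5 θ'² (sin θ e0 + cos θ e1)`; the coordinate `0` of
`P y - a t` is `y0 - 2/5 sin θ`. -/
def PRA : Prop :=
  ∀ (r : ℕ) (A : Fin r → Bool) (θ : ℝ → ℝ), ContDiff ℝ ∞ θ →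
    ∃ (P : E (r + 3) →L[ℝ] E (r + 3)) (a : ℝ → E (r + 3)),
      (∀ u v, inner ℝ (P u) v = inner ℝ u (P v)) ∧ (∀ u, P (P u) = P u) ∧ (∀ t, P (a t) = a t) ∧
      ContDiff ℝ ∞ a ∧ (∀ t, ‖a t‖ = 2 / 5) ∧
      (∀ t (y : E (r + 3)), (y 1 - 2 / 5 * Real.cos (θ t)) ^ 2 + (y 0 - 2 / 5 * Real.sin (θ t)) ^ 2 +
        ∑ j : Fin r, (if A j then (1 : ℝ) else 0) * (y j.succ.succ.succ) ^ 2 = ‖P y - a t‖ ^ 2) ∧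
      (∀ t (y : E (r + 3)), |y 0 - 2 / 5 * Real.sin (θ t)| ≤ ‖P y - a t‖) ∧
      (∀ t, ‖deriv a t‖ ≤ 2 / 5 * |deriv θ t|) ∧
      (∀ t, ‖deriv (deriv a) t‖ ≤ 2 / 5 * (|deriv (deriv θ) t| + deriv θ t ^ 2)) ∧
      ∀ t, (∀ᶠ u in 𝓝 t, Real.cos (θ u) = -1 ∧ Real.sin (θ u) = 0) → deriv a t = 0 ∧ deriv (deriv a) t = 0

/-- Goal PRB (0.8 h). `ν = (12 e1 + 5 e2)/13`, `P y = y0 e0 + ⟨y, ν⟩ ν + Σ_{¬ A j} y_{j+3} e_{j+3}`, `b = 2/5 ν`; the coordinate `0` of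
`P y - b` is `y0`. -/
def PRB : Prop :=
  ∀ (r : ℕ) (A : Fin r → Bool), ∃ (P : E (r + 3) →L[ℝ] E (r + 3)) (b : E (r + 3)),
      (∀ u v, inner ℝ (P u) v = inner ℝ u (P v)) ∧ (∀ u, P (P u) = P u) ∧ P b = b ∧ ‖b‖ = 2 / 5 ∧
      (∀ y : E (r + 3), ((12 * y 1 + 5 * y 2) / 13 - 2 / 5) ^ 2 + (y 0) ^ 2 +
        ∑ j : Fin r, (1 - (if A j then (1 : ℝ) else 0)) * (y j.succ.succ.succ) ^ 2 = ‖P y - b‖ ^ 2) ∧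
      ∀ y : E (r + 3), |y 0| ≤ ‖P y - b‖

/-- Goal LOZ (1.2 h; assume ZP, KAP, SMH, XB, DISJ). Let `p = ((t, y), s) ∈ X D`, `x = (t, y)`.
(a) If `s > 0`: near `p`, `kap s = 1`; if in addition `s > 2/5` then `kap(-s) = 0` near `p`, so `H = (.., s - ZA x)` near `p`. Similarly for
`s < -2/5`: `H = (.., s + ZB x)` near `p`.
(b) If `|s| ≤ 2/5` then `ZA = 0` near `x` or `ZB = 0` near `x`: `exp(-13/2 U) = cos s ≥ cos (2/5) ≥ 1 - 2/25 = 23/25 > exp(-13/100)`, so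
`U < 1/50`. Use `Good.cas`: `Neck`: `‖y‖² ≤ 1 - C ≤ 0.0576`, so `(y1 - 2/5 cos θ)² + (y0 - 2/5 sin θ)² ≥ (2/5 - 0.24)² = (4/25)²` and
`qA ≥ (4/25)²`, `ZA = 0` near `x` by ZP and continuity of `qA`. `Flat` or `Cap`: if `β = 0` near `t`, `ZB = 0` near `x`. If `β = 1` near `t`:
if `qA > (4/25)²` or `qB > (4/25)²` use ZP. Otherwise DISJ (with `A` of `LocConst`) gives `‖y‖² ≤ 19/20` and not `cos θ = -1, sin θ = 0`: a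
contradiction for `Cap`; and for `Flat`: `‖y‖² = 1 - C - U ≥ 1 - 10⁻⁶ - 1/50`.
(c) `|s| ≤ 2/5` and `ZB = 0` near `x`: then `H = (.., s - kap s * ZA x)` near `p`, so `s = kap s * ZA x ≥ 0`, `kap s = 1`, `s = ZA x`; the same for
`p' ∈ X D` near `p`. Differential: `kap s = 1` and, `kap' s * ZA x = 0` (if `s > 0` then `kap' s = 0`; if `s = 0` then `ZA x = 0`; in both cases). So
`D(s - kap s ZA) = ξ.2 - D ZA ξ.1`. (d) `|s| ≤ 2/5`, `ZA = 0` near `x`: the same with `-s`, `ZB`. -/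
def LOZ : Prop :=
  ∀ (r : ℕ) (D : Dat r) (p : V r), Good D → p ∈ X D → Lf D p (ZA D) ∨ Lf D p (fun x => -ZB D x)

/-- Goal LOA (1 h; assume ZP, XB, PRA, PRB, LOZ). `LOZ` gives `z = ZA D` or `z = -ZB D`. Case `Neck`: `‖y‖² ≤ 1 - C ≤ 0.0576`, so
`qA ≥ (4/25)²`, and `qB ≥ (⟨y, ν⟩ - 2/5)² ≥ (4/25)²` (`|⟨y, ν⟩| ≤ ‖y‖ ≤ 0.24`, `ν = (12 e1 + 5 e2)/13`); `z = 0` near `x` by ZP. Case `Flat` or `Cap`: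
`LocConst` gives `A`; near `t`: `qA = ‖P y - a t‖²` with `P, a` of PRA (`D.θ`). `TP`: `‖a'‖ ≤ 2/5 10⁻⁶`, `‖a''‖ ≤ 2/5 (10⁻⁶ + 10⁻¹²)` in the flat case,
`a' = a'' = 0` in the cap case; `|y0| ≤ 2/5 |sin θ| + ‖P y - a t‖`, and `sin θ = 0` in the cap case. `e = 1`. For `z = -ZB`: if `β = 0` near `t` then `z = 0`
near `x`; if `β = 1` near `t`, use PRB with the constant function `a t = b`, `e = -1`. -/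
def LOA : Prop := ∀ (r : ℕ) (D : Dat r) (p : V r), Good D → p ∈ X D → LocForm D p

/-! ## Second derivatives along curves -/

/-- Goal JET1 (1 h; assume WF1). Put `z = 13 W(4/25 - v)`; near `u`: `cos z = exp(-13/2 U) > 0`, so `U = -(2/13) log cos z`,
`U' = (2/13) tan z z'`, `z' = -13 W' v'`, so `U' = -2 σ(v) v'` near `u`, with `σ = sg`. The function `σ` of `v` has the derivative
`-((1 + λ²) 13 W'² + λ W'') = -σ₁` at `v u` (`cos z ≠ 0`). Differentiate `U' = -2 σ(v) v'`. -/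
def JET1 : Prop :=
  ∀ (v U : ℝ → ℝ) (u : ℝ), ContDiffAt ℝ 2 v u → ContDiffAt ℝ 2 U u →
    (∀ᶠ u' in 𝓝 u, Real.cos (13 * W (4 / 25 - v u')) = Real.exp (-(13 / 2 * U u'))) →
    deriv U u = -(2 * sg (v u) * deriv v u) ∧
      deriv (deriv U) u = 2 * (sg1 (v u) * deriv v u ^ 2 - sg (v u) * deriv (deriv v) u)

/-- Goal JET2 (0.8 h). Chain rule: with `ξ(u) = P Y - a T`, `ξ' = P Y' - T' a'`, `ξ'' = P Y'' - T'' a' - T'² a''`, `v² = ‖ξ‖² + 10⁻⁶`: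
`v v' = ⟨ξ, ξ'⟩`, `v'² + v v'' = ‖ξ'‖² + ⟨ξ, ξ''⟩`. -/
def JET2 : Prop :=
  ∀ (r : ℕ) (P : E (r + 3) →L[ℝ] E (r + 3)) (a : ℝ → E (r + 3)) (T : ℝ → ℝ) (Y : ℝ → E (r + 3)) (u : ℝ),
    ContDiff ℝ ∞ a → ContDiffAt ℝ 2 T u → ContDiffAt ℝ 2 Y u →
    ContDiffAt ℝ 2 (fun u' => √(‖P (Y u') - a (T u')‖ ^ 2 + 1 / 10 ^ 6)) u ∧
    deriv (fun u' => √(‖P (Y u') - a (T u')‖ ^ 2 + 1 / 10 ^ 6)) u =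
      inner ℝ (P (Y u) - a (T u)) (P (deriv Y u) - deriv T u • deriv a (T u)) /
        √(‖P (Y u) - a (T u)‖ ^ 2 + 1 / 10 ^ 6) ∧
    deriv (deriv (fun u' => √(‖P (Y u') - a (T u')‖ ^ 2 + 1 / 10 ^ 6))) u =
      (‖P (deriv Y u) - deriv T u • deriv a (T u)‖ ^ 2 -
        (inner ℝ (P (Y u) - a (T u)) (P (deriv Y u) - deriv T u • deriv a (T u)) /
          √(‖P (Y u) - a (T u)‖ ^ 2 + 1 / 10 ^ 6)) ^ 2 +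
        inner ℝ (P (Y u) - a (T u)) (P (deriv (deriv Y) u) - deriv (deriv T) u • deriv a (T u) -
          deriv T u ^ 2 • deriv (deriv a) (T u))) / √(‖P (Y u) - a (T u)‖ ^ 2 + 1 / 10 ^ 6)

/-- Goal JET3 (0.5 h). Chain rule. -/
def JET3 : Prop :=
  ∀ (r : ℕ) (D : Dat r) (T : ℝ → ℝ) (Y : ℝ → E (r + 3)) (u : ℝ),
    ContDiff ℝ ∞ D.C → ContDiffAt ℝ 2 T u → ContDiffAt ℝ 2 Y u →
    ContDiffAt ℝ 2 (fun u' => U D (T u', Y u')) u ∧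
    deriv (fun u' => U D (T u', Y u')) u = -(2 * inner ℝ (Y u) (deriv Y u)) - deriv D.C (T u) * deriv T u ∧
    deriv (deriv (fun u' => U D (T u', Y u'))) u =
      -(2 * ‖deriv Y u‖ ^ 2) - 2 * inner ℝ (Y u) (deriv (deriv Y) u) -
        deriv (deriv D.C) (T u) * deriv T u ^ 2 - deriv D.C (T u) * deriv (deriv T) u

/-- The quadratic form at a point of a tunnel (`ξ = P y - a`, `a1 = a'`, `a2 = a''`). -/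
noncomputable def SQ (P : E (r + 3) →L[ℝ] E (r + 3)) (ξ a1 a2 : E (r + 3)) (v σ σ1 c2 τ : ℝ)
    (η : E (r + 3)) : ℝ :=
  ‖η‖ ^ 2 + c2 * τ ^ 2 + σ1 * (inner ℝ ξ (P η - τ • a1) / v) ^ 2 -
    σ / v * (‖P η - τ • a1‖ ^ 2 - (inner ℝ ξ (P η - τ • a1) / v) ^ 2) + σ / v * inner ℝ ξ a2 * τ ^ 2

/-- Goal CJT (0.8 h; assume JET1, JET2, JET3). `P ξ = ξ` for `ξ = P y - a`, so `⟨ξ, P k⟩ = ⟨ξ, k⟩`. JET1 with `v(u) = √(‖P Y - a T‖² + 10⁻⁶)`, `U(u) = U D (T, Y)`,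
inserted in JET2, JET3. First line: `-(2⟨y, Y'⟩) - C' T' = -2 σ ⟨ξ, P Y' - T' a'⟩/v`. Second: `-‖Y'‖² - ⟨y, Y''⟩ - C''/2 T'² - C'/2 T'' = σ₁ X² - σ v''`,
`X = ⟨ξ, P Y' - T' a'⟩/v`. -/
def CJT : Prop :=
  ∀ (r : ℕ) (D : Dat r) (P : E (r + 3) →L[ℝ] E (r + 3)) (a : ℝ → E (r + 3)) (T : ℝ → ℝ) (Y : ℝ → E (r + 3))
    (u v : ℝ) (ξ : E (r + 3)),
    ContDiff ℝ ∞ D.C → (∀ k l, inner ℝ (P k) l = inner ℝ k (P l)) → (∀ k, P (P k) = P k) →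
    (∀ t, P (a t) = a t) → ContDiff ℝ ∞ a → ContDiffAt ℝ 2 T u → ContDiffAt ℝ 2 Y u →
    (∀ᶠ u' in 𝓝 u, Real.cos (Z (‖P (Y u') - a (T u')‖ ^ 2)) = Real.exp (-(13 / 2 * U D (T u', Y u')))) →
    ξ = P (Y u) - a (T u) → v = √(‖ξ‖ ^ 2 + 1 / 10 ^ 6) →
    inner ℝ (Y u - (sg v / v) • ξ) (deriv Y u) +
        (deriv D.C (T u) / 2 + sg v / v * inner ℝ ξ (deriv a (T u))) * deriv T u = 0 ∧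
    inner ℝ (Y u - (sg v / v) • ξ) (deriv (deriv Y) u) +
        (deriv D.C (T u) / 2 + sg v / v * inner ℝ ξ (deriv a (T u))) * deriv (deriv T) u =
      -SQ P ξ (deriv a (T u)) (deriv (deriv a) (T u)) v (sg v) (sg1 v) (deriv (deriv D.C) (T u) / 2)
        (deriv T u) (deriv Y u)

/-- Goal DEZ (0.8 h; assume WF1). Chain rule: `Z(q) = 13 W(4/25 - √(q + 10⁻⁶))`, `q = ‖P y - a t‖²`. -/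
def DEZ : Prop :=
  ∀ (r : ℕ) (P : E (r + 3) →L[ℝ] E (r + 3)) (a : ℝ → E (r + 3)) (x h : ℝ × E (r + 3)), ContDiff ℝ ∞ a →
    fderiv ℝ (fun x' : ℝ × E (r + 3) => Z (‖P x'.2 - a x'.1‖ ^ 2)) x h =
      -(13 * deriv W (4 / 25 - √(‖P x.2 - a x.1‖ ^ 2 + 1 / 10 ^ 6)) *
        (inner ℝ (P x.2 - a x.1) (P h.2 - h.1 • deriv a x.1) / √(‖P x.2 - a x.1‖ ^ 2 + 1 / 10 ^ 6)))

/-- Goal DEU (0.3 h). -/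
def DEU : Prop :=
  ∀ (r : ℕ) (D : Dat r) (x h : ℝ × E (r + 3)), ContDiff ℝ ∞ D.C →
    fderiv ℝ (U D) x h = -(2 * inner ℝ x.2 h.2) - deriv D.C x.1 * h.1

/-! ## The inequalities at the points of the tunnels -/

/-- Goal GRQ (0.6 h). In the Hilbert space `E × ℝ` (`WithLp 2`): `T = (η, o)` is orthogonal to `N = (n, m)`; put `K = (k, l)`. Cauchy-Schwarz for
`T` and `|N|² K - ⟨K, N⟩ N` (`⟨., T⟩ = |N|² ⟨K, T⟩`, square of the norm `|N|² (|K|² |N|² - ⟨K, N⟩²)`), divided by `|N|²` (if `N = 0` both sides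
are `0`). -/
def GRQ : Prop :=
  ∀ (r : ℕ) (n η k : E (r + 3)) (m o l : ℝ), inner ℝ n η + m * o = 0 →
    (inner ℝ k η + l * o) ^ 2 * (‖n‖ ^ 2 + m ^ 2) ≤
      (‖η‖ ^ 2 + o ^ 2) * ((‖k‖ ^ 2 + l ^ 2) * (‖n‖ ^ 2 + m ^ 2) - (inner ℝ k n + l * m) ^ 2)

/-- Goal GAQ (0.5 h). `o = w τ`: the left side is `|-(4/5) o² n₀ + (8/5) m o η₀|/w ≤ √(n₀² + m²) √(16/25 o⁴ + 64/25 o² η₀²)/w`, and
`16 o⁴ + 64 o² η₀² ≤ 25 (o² + η₀²)²`, since `9 o⁴ - 14 o² η₀² + 25 η₀⁴ ≥ 0`. -/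
def GAQ : Prop :=
  ∀ (r : ℕ) (n η : E (r + 3)) (m w τ : ℝ), 0 < w →
    |inner ℝ n (-((4 / 5 * w * τ ^ 2) • e0)) + m * (8 / 5 * τ * η 0)| ≤
      1 / w * √(‖n‖ ^ 2 + m ^ 2) * (‖η‖ ^ 2 + (w * τ) ^ 2)

/-- The scalars at a point of a tunnel: `A, M, ρ` are the scalar products of `(y, d/w)` and `(ξ/v, -⟨ξ, a'⟩/(v w))`, `R` is the norm of
the normal vector, `f1 ≥ 1, c2/w²`. -/
structure SD (w c2 v σ f1 A M ρ R : ℝ) : Prop where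
  w0 : 0 < w
  v1 : 38 / 1000 < v
  v2 : v < 4 / 25
  σ0 : 0 ≤ σ
  σv : 6 / 100 ≤ v ∨ 33 / 10 ≤ σ
  ρ1 : 999 / 1000 ≤ ρ
  ρ2 : ρ ≤ 1001 / 1000
  A6 : A ≤ 6
  cs : M ^ 2 ≤ A * ρ
  R0 : 0 < R
  R2 : R ^ 2 = A - 2 * σ * M + σ ^ 2 * ρ
  f0 : 1 ≤ f1
  f2 : c2 ≤ f1 * w ^ 2
  M1 : M ^ 2 ≤ 314 / 1000 * ρ
  cas : (f1 ≤ 11 / 2 ∧ 3 / 4 ≤ R) ∨ (f1 ≤ 57 / 5 ∧ 7 / 10 ≤ R ^ 2) ∨
    (f1 ≤ 7 / 5 ∧ 28 / 100 ≤ R ^ 2 ∧ M ^ 2 ≤ 1 / 10 * ρ)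
  neg : -c2 ≤ 35 * R * w ^ 2

/-- Goal SC1 (1.2 h). `ρ A - M² = ρ R² - (σ ρ - M)²`. Put `s = √ρ`, `N = M/s` (`N² ≤ m₀ = 0.314`, resp. `0.1`), `u = (σ ρ - M)/(s R)`; `cs` gives `|u| ≤ 1`;
`ρ A - M² = ρ R² (1 - u²)`, `σ = (N + u R)/s`, so `(1 + σ²)(ρ A - M²)/R² = (ρ + (N + u R)²)(1 - u²) =
(ρ + N²) + [2 N R u (1 - u²) - u² (ρ + N²)] + R² u² (1 - u²) ≤ ρ + N² + N² R²/(ρ + N²) + R²/4 ≤ 1.001 + m₀ + (m₀/(0.999 + m₀) + 1/4) R²`.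
For `R ≤ 11/2` the claim divided by `R²` follows: `f1 + 13.1 (1.001 + m₀ + (m₀/(0.999 + m₀) + 1/4) R²) + σ/1000 ≤ 42.5 R` where `σ ≤ 1.01 (0.57 + R) ≤ 7`:
a quadratic (convex) inequality in `R`, to be checked at `R = 3/4` (`f1 = 5.5`: `26.4 ≤ 31.8`), `R² = 0.7` (`f1 = 11.4`: `33.2 ≤ 35.5`), `R² = 0.28` (`f1 = 1.4`, `m₀ = 0.1`:
`17.1 ≤ 22.4`) and `R = 11/2` (`222.6 ≤ 233.7`). For `R ≥ 11/2`: `ρ A - M² ≤ 6.006`, `1 + σ² ≤ 1 + 1.003 (0.57 + R)² ≤ 1.26 R²`, so the left side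
is at most `(11.4 + 13.1 * 1.26 * 6.006 + 0.002 R) R² ≤ 42.5 R³`. -/
def SC1 : Prop :=
  ∀ w c2 v σ f1 A M ρ R : ℝ, SD w c2 v σ f1 A M ρ R →
    f1 * R ^ 2 + 131 / 10 * (1 + σ ^ 2) * (ρ * A - M ^ 2) + σ / 1000 * R ^ 2 ≤ 85 / 2 * R ^ 3

/-- Goal SC2 (0.6 h). `ρ R² = (ρ A - M²) + (σ ρ - M)² ≥ (σ ρ - M)²`, so `R ≥ σ √ρ - |M|/√ρ ≥ 0.9994 σ - 0.5605`. `R² ≥ 0.28` always, so `R ≥ 0.529`. If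
`v ≥ 6/100`: `42.5 v ≥ 2.55`; for `σ ≤ 6/5` use `R ≥ 0.529`, for `σ ≥ 6/5` the first bound. If `σ ≥ 33/10`: `42.5 v ≥ 1.615`, the first bound. -/
def SC2 : Prop :=
  ∀ w c2 v σ f1 A M ρ R : ℝ, SD w c2 v σ f1 A M ρ R → 1001 / 1000 * σ ≤ 85 / 2 * R * v

/-- The vectors and numbers at a point of a tunnel (`c = C`, `d = C'/2`, `c2 = C''/2`, `a0 = a`, `a1 = a'`, `a2 = a''`). -/
structure TQ (P : E (r + 3) →L[ℝ] E (r + 3)) (y a0 a1 a2 : E (r + 3)) (c d c2 v σ σ1 : ℝ) : Prop where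
  sym : ∀ u v, inner ℝ (P u) v = inner ℝ u (P v)
  idem : ∀ u, P (P u) = P u
  Pa : P a0 = a0
  na : ‖a0‖ = 2 / 5
  ny : ‖y‖ ^ 2 ≤ 1 - c
  nl : 1 - c - (78 / 1000 * σ ^ 2 + 15 / 10000) ≤ ‖y‖ ^ 2
  v0 : v ^ 2 = ‖P y - a0‖ ^ 2 + 1 / 10 ^ 6
  v1 : 38 / 1000 < v
  v2 : v < 4 / 25
  σ0 : 0 ≤ σ
  σ10 : 0 ≤ σ1
  σ11 : σ1 ≤ 131 / 10 * (1 + σ ^ 2)
  σv : 6 / 100 ≤ v ∨ 33 / 10 ≤ σ
  cas : (FlatOK c d c2 ∧ ‖a1‖ ≤ 1 / 10 ^ 6 ∧ ‖a2‖ ≤ 1 / 10 ^ 6 ∧ 552 / 1000 ≤ wr y) ∨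
    (CapOK c d c2 ∧ a1 = 0 ∧ a2 = 0 ∧ 872 / 1000 ≤ wr y ∧ wr y ≤ 1128 / 1000)

/-- Goal LBQ (1.2 h). `ξ = P y - a0`, `P ξ = ξ`, `n = y - (σ/v) ξ`, `w = wr y`, `m = (d + (σ/v) ⟨ξ, a1⟩)/w`, `b = ⟨ξ, a1⟩/(v w)`, `A = ‖y‖² + (d/w)²`,
`M = ⟨y, ξ⟩/v - (d/w) b`, `ρ = ‖ξ‖²/v² + b²`, `R = √(‖n‖² + m²)`. `R2`: `n = y - σ (ξ/v)`, `m = d/w + σ b`. `cs`: Cauchy-Schwarz for
`(y, d/w)`, `(ξ/v, -b)`. `ρ`: `‖ξ‖²/v² = 1 - 10⁻⁶/v² ≥ 1 - 0.0007`, `|b| ≤ 2 10⁻⁶`. `⟨y, ξ⟩ = ⟨P y, ξ⟩ = ‖ξ‖² + ⟨a0, ξ⟩`, so `|⟨y, ξ⟩| ≤ 0.56 ‖ξ‖` (`‖ξ‖ ≤ v < 0.16`) and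
`M² ≤ 0.314 ρ` (flat case: `|(d/w) b| ≤ 10⁻¹¹`; cap case: `b = 0`). `A ≤ 1 + 3.6/0.76 ≤ 6`.
`‖n‖² = ‖y‖² - 2 (σ/v) ⟨y, ξ⟩ + σ² ‖ξ‖²/v² ≥ (1 - c - 0.078 σ² - 0.0015) - 1.12 σ + 0.9993 σ² ≥ 0.658 - c`.
Flat: `R² ≥ 0.657`, `f1 = 1`, `c2 ≤ 10⁻⁶ ≤ w²`, `-c2 ≤ 10⁻⁶ ≤ 35 R w²`.
Cap: `m = d/w`, `w² ≤ 1.2724`, `w² ≥ 0.76`, `R² ≥ 0.658 - c + d²/1.2724`. If `d² ≥ 1.2725 (c - 0.095)` and `c2 ≤ 4`: `R² ≥ 0.563`, `f1 = 5.5`. If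
`d² ≥ 1.2725 (c + 0.0425)`: `R² ≥ 0.7`, `f1 = 11.4` (`8.6 ≤ 11.4 w²`). In both cases `-c2 ≤ 17.5 ≤ 35 * 3/4 * 0.76`. If `c ≥ 0.9`, `d² ≥ 0.38`, `c2 ≤ 0`, `c2² ≤ 470 d²`:
`R² ≥ d²/w² ≥ 0.298`, `f1 = 1`, `M² ≤ ‖y‖² ρ ≤ 0.1 ρ`, `-c2 ≤ 21.7 |d| ≤ 21.7 R w ≤ 35 R w²`. -/
def LBQ : Prop :=
  ∀ (r : ℕ) (P : E (r + 3) →L[ℝ] E (r + 3)) (y a0 a1 a2 : E (r + 3)) (c d c2 v σ σ1 : ℝ),
    TQ P y a0 a1 a2 c d c2 v σ σ1 →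
    ∃ f1, SD (wr y) c2 v σ f1 (‖y‖ ^ 2 + (d / wr y) ^ 2)
      (inner ℝ y (P y - a0) / v - d / wr y * (inner ℝ (P y - a0) a1 / (v * wr y)))
      (‖P y - a0‖ ^ 2 / v ^ 2 + (inner ℝ (P y - a0) a1 / (v * wr y)) ^ 2)
      (√(‖y - (σ / v) • (P y - a0)‖ ^ 2 + ((d + σ / v * inner ℝ (P y - a0) a1) / wr y) ^ 2))

/-- Goal UPQ (1 h; assume LBQ, GRQ, SC1). `w = wr y ≥ 0.552`, `o = w τ`, `ζ = P η - τ a1`, `X = ⟨ξ, ζ⟩/v = ⟨ξ/v, η⟩ - b o` (`P ξ = ξ`). `X² ≤ ‖ζ‖²` (`‖ξ‖ ≤ v`), so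
`SQ ≤ ‖η‖² + c2 τ² + σ₁ X² + σ |a2| τ² ≤ f1 (‖η‖² + o²) + 13.1 (1 + σ²) X² + (σ/1000)(‖η‖² + o²)` (`τ² ≤ 3.3 o²`, `‖a2‖ ≤ 10⁻⁶`). GRQ with `k = ξ/v`, `l = -b`:
`X² R² ≤ (‖η‖² + o²)(ρ R² - (M - σ ρ)²) = (‖η‖² + o²)(ρ A - M²)` (`⟨k, n⟩ + l m = M - σ ρ`). Multiply by `R²` and use SC1. -/
def UPQ : Prop :=
  ∀ (r : ℕ) (P : E (r + 3) →L[ℝ] E (r + 3)) (y a0 a1 a2 η : E (r + 3)) (c d c2 v σ σ1 τ : ℝ),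
    TQ P y a0 a1 a2 c d c2 v σ σ1 →
    inner ℝ (y - (σ / v) • (P y - a0)) η + (d + σ / v * inner ℝ (P y - a0) a1) / wr y * (wr y * τ) = 0 →
    SQ P (P y - a0) a1 a2 v σ σ1 c2 τ η ≤
      426 / 10 * √(‖y - (σ / v) • (P y - a0)‖ ^ 2 + ((d + σ / v * inner ℝ (P y - a0) a1) / wr y) ^ 2) *
        (‖η‖ ^ 2 + (wr y * τ) ^ 2)

/-- Goal LOQ (1 h; assume LBQ, SC2). `-SQ ≤ -c2 τ² + (σ/v) ‖ζ‖² + σ ‖a2‖ τ²` (`‖ξ‖ ≤ v`; the terms `‖η‖²`, `σ₁ X²`, `(σ/v) X²` are `≥ 0`). Cap case: `ζ = P η`, `‖ζ‖ ≤ ‖η‖`,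
`a2 = 0`, `-c2 ≤ 35 R w²` and `σ/v ≤ 42.5 R`. Flat case: `‖ζ‖² ≤ (1 + ε) ‖η‖² + 2 ε τ²` with `ε = 10⁻⁶`, `τ² ≤ 3.3 (w τ)²`, `σ ≤ 0.16 * 42.5 R`, `-c2 ≤ ε`, `R ≥ 1/2`. -/
def LOQ : Prop :=
  ∀ (r : ℕ) (P : E (r + 3) →L[ℝ] E (r + 3)) (y a0 a1 a2 η : E (r + 3)) (c d c2 v σ σ1 τ : ℝ),
    TQ P y a0 a1 a2 c d c2 v σ σ1 →
    -SQ P (P y - a0) a1 a2 v σ σ1 c2 τ η ≤
      426 / 10 * √(‖y - (σ / v) • (P y - a0)‖ ^ 2 + ((d + σ / v * inner ℝ (P y - a0) a1) / wr y) ^ 2) *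
        (‖η‖ ^ 2 + (wr y * τ) ^ 2)

/-! ## The inequalities at the other points -/

/-- Goal BAF (0.3 h). `w ≥ 1/5`, `|c2|/w² ≤ 25 10⁻⁶`, `(1 - c)/G ≤ 1`, `√G ≥ 0.999`. -/
def BAF : Prop :=
  ∀ c d c2 w : ℝ, FlatOK c d c2 → |w - 1| ≤ 4 / 5 * √(1 - c) →
    0 < w ∧ 0 < 1 - c + (d / w) ^ 2 ∧
      1 + |c2| / w ^ 2 * ((1 - c) / (1 - c + (d / w) ^ 2)) + 1 / w * √(1 - c + (d / w) ^ 2) ≤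
        400 / 9 * √(1 - c + (d / w) ^ 2)

/-- Goal BAC (1 h). `S = 1 - c ≥ 0.0576`, `x = (d/w)²`, `G = S + x`, `R = √G ≥ 0.24`. `S² x ≤ 4 G³/27` (arithmetic-geometric mean), so `S |d|/w ≤ 0.385 R³`. If
`c2² ≤ 50 d²`: `|c2| ≤ 7.072 |d|`, `|c2|/w² S/G ≤ 7.072 * 0.385 R/w ≤ 2.73 R/w`, and `w ≥ 1/5`: the left side is `≤ 1 + 5 * 3.73 R ≤ 44.4 R`. If `c ≥ 0.6`, `c2² ≤ 500 d²`:
`|c2| ≤ 22.37 |d|`, `|c2|/w² S/G ≤ 8.62 R/w`, `w ≥ 1 - 4/5 √0.4 ≥ 0.49`: the left side is `≤ 1 + 9.62 R/0.49 ≤ 1 + 19.7 R`. -/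
def BAC : Prop :=
  ∀ c d c2 w : ℝ, CapOK c d c2 → |w - 1| ≤ 4 / 5 * √(1 - c) →
    0 < w ∧ 0 < 1 - c + (d / w) ^ 2 ∧
      1 + |c2| / w ^ 2 * ((1 - c) / (1 - c + (d / w) ^ 2)) + 1 / w * √(1 - c + (d / w) ^ 2) ≤
        400 / 9 * √(1 - c + (d / w) ^ 2)

/-- Goal BAN (0.8 h). `√(1 - c) ≤ 0.24`, `w ∈ [0.808, 1.192]`, `w² ≥ 0.6528`, `w² ≤ 1.421`. `G = 1 - c + (d/w)² ≥ G₁ = 1 - c + d²/1.421 > 0`. `|c2| (1 - c) ≤ 25.4 G₁ √G₁ - 0.653 G₁`, so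
`|c2|/w² (1 - c)/G ≤ |c2| (1 - c)/(0.6528 G₁) ≤ 38.91 √G₁ - 1` (`0.653/0.6528 ≥ 1`), and `1/w ≤ 1.24`: the left side is `≤ 38.91 √G + 1.24 √G`. -/
def BAN : Prop :=
  ∀ c d c2 w : ℝ, NeckOK c d c2 → |w - 1| ≤ 4 / 5 * √(1 - c) →
    0 < w ∧ 0 < 1 - c + (d / w) ^ 2 ∧
      1 + |c2| / w ^ 2 * ((1 - c) / (1 - c + (d / w) ^ 2)) + 1 / w * √(1 - c + (d / w) ^ 2) ≤
        400 / 9 * √(1 - c + (d / w) ^ 2)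

/-- Goal BAQ (0.8 h; assume BAF, BAC, BAN). `w = wr y`, `|w - 1| = 4/5 |y 0| ≤ 4/5 ‖y‖ = 4/5 √(1 - c)`. `S = ‖y‖² = 1 - c`, `x = (d/w)²`, `o = w τ`, `G = S + x`. `(d/w) o = -⟨y, η⟩`, so
`x o² ≤ S ‖η‖²`, `G o² ≤ S (‖η‖² + o²)`; `|‖η‖² + c2 τ²| ≤ ‖η‖² + |c2|/w² o² ≤ (1 + |c2|/w² S/G)(‖η‖² + o²)`. -/
def BAQ : Prop :=
  ∀ (r : ℕ) (y η : E (r + 3)) (c d c2 τ : ℝ), ‖y‖ ^ 2 = 1 - c →
    (FlatOK c d c2 ∨ CapOK c d c2 ∨ NeckOK c d c2) → inner ℝ y η + d / wr y * (wr y * τ) = 0 →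
    0 < wr y ∧ 0 < ‖y‖ ^ 2 + (d / wr y) ^ 2 ∧
      |‖η‖ ^ 2 + c2 * τ ^ 2| +
          1 / wr y * √(‖y‖ ^ 2 + (d / wr y) ^ 2) * (‖η‖ ^ 2 + (wr y * τ) ^ 2) ≤
        400 / 9 * √(‖y‖ ^ 2 + (d / wr y) ^ 2) * (‖η‖ ^ 2 + (wr y * τ) ^ 2)

/-! ## The normal forms -/

/-- Goal TPQ (0.8 h; assume WF2, WF3, WF4, UBQ, XB). `p ∈ X D`, `v = √(‖P y - a t‖² + 10⁻⁶) < 4/25`, `|p.2| = 13 W(4/25 - v) = Z(‖P y - a t‖²) < π/2` (XB). `σ = sg v`, `σ1 = sg1 v`. `1 - c - ‖y‖² = U ≥ 0`,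
`13 U ≤ tan² z = λ²` (UBQ), WF4 gives `nl`. `wr y ≥ 1 - 4/5 (2/5 + 0.16) = 0.552` in the flat case, `|wr y - 1| ≤ 4/5 * 0.16` in the cap case. -/
def TPQ : Prop :=
  ∀ (r : ℕ) (D : Dat r) (p : V r) (P : E (r + 3) →L[ℝ] E (r + 3)) (a : ℝ → E (r + 3)) (v : ℝ), Good D →
    p ∈ X D → TP D p.1 P a → v = √(‖P p.1.2 - a p.1.1‖ ^ 2 + 1 / 10 ^ 6) → v < 4 / 25 →
    (p.2 = Z (‖P p.1.2 - a p.1.1‖ ^ 2) ∨ p.2 = -Z (‖P p.1.2 - a p.1.1‖ ^ 2)) →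
    TQ P p.1.2 (a p.1.1) (deriv a p.1.1) (deriv (deriv a) p.1.1) (D.C p.1.1) (deriv D.C p.1.1 / 2)
      (deriv (deriv D.C) p.1.1 / 2) v (sg v) (sg1 v)

/-- Goal TNQ (0.8 h; assume WF1, XB, LBQ, UPQ, LOQ, GAQ, BAQ, TPQ). The inequality of `NF` at a point of a tunnel. If `v < 4/25`: TPQ, UPQ, LOQ, GAQ: `|SQ| ≤ 42.6 R T²`, the wrap term is
`≤ (1/w) R T²`, `w ≥ 0.552`, `42.6 + 1/0.552 ≤ 400/9`; `R > 0` by LBQ. If `v ≥ 4/25`: `W = W' = W'' = 0` at `4/25 - v`, `sg v = sg1 v = 0`, `p.2 = 0`, `U = 0`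
(`exp(-13/2 U) = cos 0`), `‖y‖² = 1 - c`, `SQ = ‖η‖² + c2 τ²`: BAQ and GAQ. -/
def TNQ : Prop :=
  ∀ (r : ℕ) (D : Dat r) (p : V r) (P : E (r + 3) →L[ℝ] E (r + 3)) (a : ℝ → E (r + 3)) (v m : ℝ)
    (ξ n : E (r + 3)), Good D → p ∈ X D → TP D p.1 P a → ξ = P p.1.2 - a p.1.1 →
    v = √(‖ξ‖ ^ 2 + 1 / 10 ^ 6) → (p.2 = Z (‖ξ‖ ^ 2) ∨ p.2 = -Z (‖ξ‖ ^ 2)) →
    n = p.1.2 - (sg v / v) • ξ →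
    m = (deriv D.C p.1.1 / 2 + sg v / v * inner ℝ ξ (deriv a p.1.1)) / wr p.1.2 →
    0 < wr p.1.2 ∧ 0 < ‖n‖ ^ 2 + m ^ 2 ∧
      ∀ (τ : ℝ) (η : E (r + 3)), inner ℝ n η + m * (wr p.1.2 * τ) = 0 →
        |-SQ P ξ (deriv a p.1.1) (deriv (deriv a) p.1.1) v (sg v) (sg1 v)
            (deriv (deriv D.C) p.1.1 / 2) τ η +
          (inner ℝ n (-((4 / 5 * wr p.1.2 * τ ^ 2) • e0)) + m * (8 / 5 * τ * η 0))| ≤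
        400 / 9 * √(‖n‖ ^ 2 + m ^ 2) * (‖η‖ ^ 2 + (wr p.1.2 * τ) ^ 2)

/-- Goal NFT (1 h; assume WF1, XB, CJT, DEZ, DEU, TNQ). `x = p.1 = (t, y)`, `ξ = P y - a t`, `v = √(‖ξ‖² + 10⁻⁶)`, `z₀ = 13 W(4/25 - v) = Z(‖ξ‖²)`, `p.2 = e z₀`, `cos p.2 = cos z₀ = exp(-13/2 U) > 0`. `n, m` as in TNQ, `L = fderiv z x`,
`κ = -13 cos z₀`. By DEZ, DEU, `-sin(p.2) L h + 13/2 exp(-13/2 U) DU h = 13 sin z₀ W' X - 13 cos z₀ (⟨y, h.2⟩ + C'/2 h.1) = κ (⟨n, h.2⟩ + m w h.1)` with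
`X = ⟨ξ, P h.2 - h.1 a'⟩/v`, `sin z₀ W' = cos z₀ sg v`, `⟨ξ, P k⟩ = ⟨ξ, k⟩`; add `-sin(p.2) (ξ.2 - L ξ.1)`. For the curves: near `u`, `s = z (T, Y) = e Z(‖P Y - a T‖²)` and `H = 0`,
so `cos Z(..) = exp(-13/2 U)`: CJT gives `⟨n, Y'⟩ + m (w T') = 0` and `⟨n, Y''⟩ + m (w T'') = -SQ`; then TNQ. -/
def NFT : Prop :=
  ∀ (r : ℕ) (D : Dat r) (p : V r) (z : ℝ × E (r + 3) → ℝ) (P : E (r + 3) →L[ℝ] E (r + 3))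
    (a : ℝ → E (r + 3)) (e : ℝ), Good D → p ∈ X D → Lf D p z → TP D p.1 P a → (e = 1 ∨ e = -1) →
    (∀ᶠ x in 𝓝 p.1, z x = e * Z (‖P x.2 - a x.1‖ ^ 2)) → NF D p

/-- Goal NFB (0.8 h; assume XB, JET3, DEU, BAQ, GAQ). `z = 0` near `x`: `p.2 = 0`, `U = 0`, `‖y‖² = 1 - C`, `n = y`, `m = C'/(2w)`, `κ = -13`, `L = 0`. For the curves: near `u`, `s = 0` and
`exp(-13/2 U(T, Y)) = 1`, `U(T, Y) = 0`, so the first and second derivatives of `U(T, Y)` are `0`: by JET3 `⟨n, Y'⟩ + m (w T') = 0`, `⟨n, Y''⟩ + m (w T'') = -(‖Y'‖² + C''/2 T'²)`. `Good.cas` gives the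
three cases of BAQ. -/
def NFB : Prop :=
  ∀ (r : ℕ) (D : Dat r) (p : V r) (z : ℝ × E (r + 3) → ℝ), Good D → p ∈ X D → Lf D p z →
    (∀ᶠ x in 𝓝 p.1, z x = 0) → NF D p

/-! ## The wrapping -/

/-- The isometry of the moving frame. -/
noncomputable def Rf (φ : ℝ) (η : E (r + 3)) (o : ℝ) : E (r + 4) :=
  WithLp.toLp 2 (Fin.cons (η 0 * Real.cos φ - o * Real.sin φ)
    (Fin.cons (η 0 * Real.sin φ + o * Real.cos φ) (fun i : Fin (r + 2) => η i.succ)))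

/-- Goal WRA (0.7 h). Coordinates: `cos² + sin² = 1`. `Q x = Rf (4/5 t) (y + 5/4 e0) 0`, so `‖Q x‖ = ‖y + 5/4 e0‖ ≤ 5/4 + ‖y‖`. -/
def WRA : Prop :=
  (∀ (r : ℕ) (φ : ℝ) (η η' : E (r + 3)) (o o' : ℝ),
    inner ℝ (Rf φ η o) (Rf φ η' o') = inner ℝ η η' + o * o') ∧
  (∀ (r : ℕ) (φ : ℝ) (η : E (r + 3)) (o : ℝ), ‖Rf φ η o‖ ^ 2 = ‖η‖ ^ 2 + o ^ 2) ∧
  ∀ (r : ℕ) (x : ℝ × E (r + 3)), ‖x.2‖ ≤ 1 → ‖Q x‖ ≤ 9 / 4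

/-- Goal WRB (0.8 h). Coordinates; `(5/4 + y₀) * 4/5 = wr y`. -/
def WRB : Prop :=
  ∀ (r : ℕ), ContDiff ℝ ∞ (Q (r := r)) ∧ ContDiff ℝ ∞ (f (r := r)) ∧
    (∀ (x h : ℝ × E (r + 3)), fderiv ℝ (Q (r := r)) x h = Rf (4 / 5 * x.1) h.2 (wr x.2 * h.1)) ∧
    ∀ (p ξ : V r), fderiv ℝ (f (r := r)) p ξ = (4 / 9 : ℝ) • Rf (4 / 5 * p.1.1) ξ.1.2 (wr p.1.2 * ξ.1.1)

/-- Goal WRC (1 h). Coordinates: `q = 5/4 + Y₀`, `φ = 4/5 T`: `(q cos φ)'' = (q'' - q φ'²) cos φ - (2 q' φ' + q φ'') sin φ`, `(q sin φ)'' = (q'' - q φ'²) sin φ + (2 q' φ' + q φ'') cos φ`;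
`q φ'² = 4/5 w T'²`, `2 q' φ' + q φ'' = 8/5 T' Y₀' + w T''`. -/
def WRC : Prop :=
  ∀ (r : ℕ) (T : ℝ → ℝ) (Y : ℝ → E (r + 3)) (u : ℝ), ContDiffAt ℝ 2 T u → ContDiffAt ℝ 2 Y u →
    deriv (fun u' => Q (T u', Y u')) u = Rf (4 / 5 * T u) (deriv Y u) (wr (Y u) * deriv T u) ∧
    acc (fun u' => Q (T u', Y u')) u =
      Rf (4 / 5 * T u) (deriv (deriv Y) u - (4 / 5 * wr (Y u) * deriv T u ^ 2) • e0)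
        (wr (Y u) * deriv (deriv T) u + 8 / 5 * deriv T u * deriv Y u 0)

/-- Goal FIS (0.7 h; assume XB, WRA, WRB). `w = wr y ≥ 1/5 > 0` (XB). Surjectivity: for `(u₁, u₂)` take `(η, o) = μ (n, m)` with `κ μ (‖n‖² + m²) = u₁ + sin(p.2) u₂`, `τ = o/w`, `ξ.1 = (τ, η)`, `ξ.2 = u₂ + L ξ.1`. Immersion: `fderiv f p ξ = 0` gives
`‖ξ.1.2‖² + (w ξ.1.1)² = 0` (WRA), so `ξ.1 = 0`, and `ξ.2 = L 0 = 0` from `Tan`. -/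
def FIS : Prop :=
  ∀ (r : ℕ) (D : Dat r), Good D → (∀ p ∈ X D, NF D p) →
    (∀ p ∈ X D, Function.Surjective (fderiv ℝ (H D) p)) ∧ ImmOn D

/-- Goal FIC (1.2 h; assume XB, WRA, WRB, WRC). `c` a curve, `p = c t`, `T = c.1.1`, `Y = c.1.2`, `s = c.2`. `f ∘ c = 4/9 Q(T, Y)`; `(f ∘ c)' = 4/9 Rf φ Y' (w T')`, `acc (f ∘ c) = 4/9 Rf φ k l` with
`k = Y'' - (4/5 w T'²) e0`, `l = w T'' + 8/5 T' Y₀'`. If `⟨n, η⟩ + m o = 0`, then `ξ = ((o/w, η), L (o/w, η))` is tangent, so `⟨k, η⟩ + l o = 0` by the orthogonality (WRA). Take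
`(η, o) = (‖n‖² + m²)(k, l) - (⟨k, n⟩ + l m)(n, m)`: `(‖n‖² + m²)(‖k‖² + l²) = (⟨k, n⟩ + l m)²`. With `NF`:
`√(‖k‖² + l²) ≤ 400/9 (‖Y'‖² + (w T')²)`, and unit speed gives `(4/9)² (‖Y'‖² + (w T')²) = 1`. So `‖acc (f ∘ c)‖ ≤ 4/9 * 400/9 * 81/16 = 100`. -/
def FIC : Prop := ∀ (r : ℕ) (D : Dat r), Good D → (∀ p ∈ X D, NF D p) → CurvLE D 100

/-! ## The explicit data -/

/-- `|F|, |F'|, |F''| ≤ ε` at `t`. -/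
def Sm (F : ℝ → ℝ) (t ε : ℝ) : Prop := |F t| ≤ ε ∧ |deriv F t| ≤ ε ∧ |deriv (deriv F) t| ≤ ε

/-- Goal STB (0.5 h). `Real.smoothTransition` is smooth and constant on `x ≤ 0` and on `x ≥ 1`, so its two first derivatives vanish outside `[0, 1]` and are bounded. -/
def STB : Prop := ∃ K, 0 < K ∧ ∀ x, Sm Real.smoothTransition x K

/-- Goal HNA (1 h). `D = (99 + cosh 28τ)/100 ≥ 1`, `z = (h/0.99)⁴ = 1/D`, `h = 0.99 exp(-1/4 log D)`, `h' = -1/4 h D'/D`, `D' = 28/100 sinh`, `D'² = 784 (D - 1)(D - 0.98)`, `D'' = 784 (D - 0.99)`,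
`h'' = h/4 (5/4 D'²/D² - D''/D)`. So `h'²/4 = 12.25 h² (1 - z)(1 - 0.98 z)`, `h''/2 = h (24.5 - 145.53 z + 120.05 z²)`. -/
def HNA : Prop :=
  ContDiff ℝ ∞ hN ∧ ∀ τ, 0 < hN τ ∧ hN τ ≤ 99 / 100 ∧
    (deriv hN τ / 2) ^ 2 = 49 / 4 * hN τ ^ 2 * (1 - (hN τ / (99 / 100)) ^ 4) *
      (1 - 98 / 100 * (hN τ / (99 / 100)) ^ 4) ∧
    deriv (deriv hN) τ / 2 = hN τ * (245 / 10 - 14553 / 100 * (hN τ / (99 / 100)) ^ 4 +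
      12005 / 100 * (hN τ / (99 / 100)) ^ 8)

/-- Goal HNB (0.6 h; assume HNA). `D ≥ exp(28|τ|)/200`, `200^(1/4) ≤ 4`; `|h'| ≤ 7 h`, `|h''| ≤ 49 h` by HNA (`0 ≤ z ≤ 1`). For `|τ| ≤ 1/40`: `cosh(28 τ) ≤ cosh(7/10) ≤ 2`, `D ≤ 1.01`,
`h = 0.99 D^(-1/4) ≥ 0.99/D > 0.9424`. -/
def HNB : Prop :=
  (∀ τ, Sm hN τ (200 * Real.exp (-(7 * |τ|)))) ∧ ∀ τ, |τ| ≤ 1 / 40 → 9424 / 10000 < hN τ

/-- Goal CAA (1 h). A polynomial inequality in one variable `ρ = c/0.99 ∈ (0, 0.952]`, `z = ρ⁴`. The range of `c2` is `[-17.25, 8.38]`, the maximum of `g` is `3.455`. (Bernstein coefficients on small intervals.) -/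
def CAA : Prop :=
  ∀ c z : ℝ, 0 < c → c ≤ 9424 / 10000 → z = (c / (99 / 100)) ^ 4 →
    -(35 / 2) ≤ c * (245 / 10 - 14553 / 100 * z + 12005 / 100 * z ^ 2) ∧
    c * (245 / 10 - 14553 / 100 * z + 12005 / 100 * z ^ 2) ≤ 86 / 10 ∧
    49 / 4 * c ^ 2 * (1 - z) * (1 - 98 / 100 * z) ≤ 36 / 10

/-- Goal CAB (1.2 h). The same variable. -/
def CAB : Prop :=
  ∀ c z g k : ℝ, 0 < c → c ≤ 9424 / 10000 → z = (c / (99 / 100)) ^ 4 →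
    g = 49 / 4 * c ^ 2 * (1 - z) * (1 - 98 / 100 * z) →
    k = c * (245 / 10 - 14553 / 100 * z + 12005 / 100 * z ^ 2) →
    ((12725 / 10000 * (c - 95 / 1000) ≤ g ∧ (k ≤ 4 ∨ 12725 / 10000 * (c + 425 / 10000) ≤ g)) ∨
      (9 / 10 ≤ c ∧ 38 / 100 ≤ g ∧ k ≤ 0 ∧ k ^ 2 ≤ 470 * g))

/-- Goal CAC (1 h). The same variable. -/
def CAC : Prop :=
  ∀ c z g k : ℝ, 0 < c → c ≤ 9424 / 10000 → z = (c / (99 / 100)) ^ 4 →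
    g = 49 / 4 * c ^ 2 * (1 - z) * (1 - 98 / 100 * z) →
    k = c * (245 / 10 - 14553 / 100 * z + 12005 / 100 * z ^ 2) →
    (k ^ 2 ≤ 50 * g ∨ (6 / 10 ≤ c ∧ k ^ 2 ≤ 500 * g))

/-- Goal NEK (1.2 h). The same variable, `ρ = c/0.99 ∈ [0.9519, 1]`; the ratio of the two sides is at most `0.72`. -/
def NEK : Prop :=
  ∀ c z g k G : ℝ, 9424 / 10000 ≤ c → c ≤ 99 / 100 → z = (c / (99 / 100)) ^ 4 →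
    g = 49 / 4 * c ^ 2 * (1 - z) * (1 - 98 / 100 * z) →
    k = c * (245 / 10 - 14553 / 100 * z + 12005 / 100 * z ^ 2) → G = 1 - c + g / (1421 / 1000) →
    0 < G ∧ |k| * (1 - c) + 653 / 1000 * G ≤ 254 / 10 * (G * √G)

/-- Goal HNC (0.4 h; assume HNA, CAA, CAB, CAC, NEK). -/
def HNC : Prop :=
  ∀ τ, CapOK (hN τ) (deriv hN τ / 2) (deriv (deriv hN) τ / 2) ∧ hN τ ≤ 9424 / 10000 ∨
    NeckOK (hN τ) (deriv hN τ / 2) (deriv (deriv hN) τ / 2) ∧ 9424 / 10000 ≤ hN τ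

/-- Goal ENC (0.6 h). `d = ∓2c`, `d² = 4c²`, `c2 = 8c`. Cap: `4c² - 1.2725 c + 0.1209 > 0`; if `8c > 4` then `4c² ≥ 1.2725 (c + 0.0425)`; `64c² ≤ 200c²`. Neck: `G ≥ 4 * 0.888/1.421 ≥ 2.4`, `√G ≥ 1.5`. -/
def ENC : Prop :=
  ∀ c d : ℝ, 0 < c → c ≤ 1 → (d = 2 * c ∨ d = -(2 * c)) → CapOK c d (8 * c) ∨ NeckOK c d (8 * c)

/-- Goal CCE (1 h; assume STB). `F t = chi P t * exp(-4t)`: `|chi|, |chi'|, |chi''| ≤ 64 K` for `P ≥ 1` (chain rule, STB), Leibniz: `|F''| ≤ (64 + 2*4*64 + 16*64) K exp(-4t)`, and `exp(-4t) ≤ exp(-P/2)` for `t ≥ P/8`. -/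
def CCE : Prop :=
  ∃ K, 0 < K ∧ ∀ P t : ℝ, 1 ≤ P → P / 8 ≤ t →
    Sm (fun u => chi P u * Real.exp (-(4 * u))) t (K * Real.exp (-(P / 2)))

/-- Goal CCN (1 h; assume STB, HNA, HNB). The same with `hN`: `200 exp(-7|τ|) ≤ 200 exp(-P/2)` for `|τ| ≥ P/8`. -/
def CCN : Prop :=
  ∃ K, 0 < K ∧ ∀ P τ : ℝ, 1 ≤ P → P / 8 ≤ |τ| →
    Sm (fun u => chi P u * chi P (-u) * hN u) τ (K * Real.exp (-(P / 2)))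

/-- Goal CCF (1 h; assume HNA, CCE, CCN). `CC N P` is the sum of `F(t)`, `F(NP - t)` (`F` of CCE; the derivative of `t ↦ F(NP - t)` is `-F'(NP - t)`) and of `N - 1` translates of the function of CCN. For `0 ≤ t ≤ NP` and `|t - iP| ≥ P/8` for all
`i ≤ N` each is bounded by `K exp(-P/2)`, so the sum by `(N + 1) K exp(-P/2) ≤ 10⁻⁶` for `P` large. -/
def CCF : Prop :=
  ∀ N : ℕ, 1 ≤ N → ∃ P0 : ℝ, 1 ≤ P0 ∧ ∀ P t : ℝ, P0 ≤ P → 0 ≤ t → t ≤ N * P →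
    (∀ i : ℕ, i ≤ N → P / 8 ≤ |t - i * P|) → Sm (CC N P) t (1 / 10 ^ 6)

/-- Goal CCS (1 h; assume HNA). `CC` is smooth and `≥ 0`. For `t < 0`: `chi P t = 1`, `CC ≥ exp(-4t) > 1`; for `t > NP` the same. If `|t - iP| < P/8` then, near `t`, all terms but one vanish: `i = 0`: `chi P (NP - t) = 0` since `NP - t ≥ P/4`, and `chi P (jP - t) = 0`
for `j ≥ 1`. -/
def CCS : Prop :=
  ∀ (N : ℕ) (P : ℝ), 1 ≤ N → 1 ≤ P → ContDiff ℝ ∞ (CC N P) ∧ (∀ t, 0 ≤ CC N P t) ∧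
    (∀ t, CC N P t ≤ 1 → 0 ≤ t ∧ t ≤ N * P) ∧
    (∀ t, |t| < P / 8 → ∀ᶠ u in 𝓝 t, CC N P u = Real.exp (-(4 * u))) ∧
    (∀ t, |t - N * P| < P / 8 → ∀ᶠ u in 𝓝 t, CC N P u = Real.exp (4 * (u - N * P))) ∧
    ∀ (i : ℕ) (t : ℝ), 1 ≤ i → i < N → |t - i * P| < P / 8 → ∀ᶠ u in 𝓝 t, CC N P u = hN (u - i * P)

/-- Goal TTF (1 h; assume STB). `θ' = 8π/P Σ d_i S'(..)`, `θ'' = 32π/P² Σ d_i S''(..)` tend to `0` uniformly. If `|t - iP| < P/8` then near `t`: `S(4(t - jP)/P - 3/2) = 0` for `j ≥ i` and `= 1` for `j < i`, so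
`θ = π + 2π Σ_{j < min(i, N)} d_j`. -/
def TTF : Prop :=
  ∀ (N : ℕ) (d : ℕ → ℤ), (∀ P : ℝ, ContDiff ℝ ∞ (TT N d P)) ∧
    (∃ P0 : ℝ, 1 ≤ P0 ∧ ∀ P t : ℝ, P0 ≤ P → |deriv (TT N d P) t| ≤ 1 / 10 ^ 6 ∧
      |deriv (deriv (TT N d P)) t| ≤ 1 / 10 ^ 6) ∧
    ∀ (P t : ℝ) (i : ℕ), 1 ≤ P → |t - i * P| < P / 8 →
      ∀ᶠ u in 𝓝 t, Real.cos (TT N d P u) = -1 ∧ Real.sin (TT N d P u) = 0

/-- Goal SWF (1 h). `S_i(t) = S(20(t - iP) + 1/2)` is `0` for `t ≤ iP - 1/40`, `1` for `t ≥ iP + 1/40`; for `P ≥ 1` at most one of them is not `0` or `1` at `t`, and then `S_j = 1` for `j < i`, `S_j = 0` for `j > i`. So (telescoping sum) `sw = a (i-1) (1 - S_i) + a i S_i`, or `sw = a k` near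
`t` where `k` is the number of the `i ∈ [1, N)` with `iP < t`. -/
def SWF : Prop :=
  ∀ (N : ℕ) (P : ℝ), 1 ≤ N → 1 ≤ P →
    (∀ a : ℕ → ℝ, ContDiff ℝ ∞ (sw N a P)) ∧
    (∀ (a : ℕ → ℝ) (t : ℝ), (∀ i, 0 ≤ a i ∧ a i ≤ 1) → 0 ≤ sw N a P t ∧ sw N a P t ≤ 1) ∧
    ∀ t : ℝ, (∀ i : ℕ, 1 ≤ i → i < N → 1 / 40 < |t - i * P|) →
      ∃ k : ℕ, ∀ᶠ u in 𝓝 t, ∀ a : ℕ → ℝ, sw N a P u = a k

/-- Goal GDD (1.2 h; assume HNA, HNB, HNC, ENC, CCF, CCS, TTF, SWF). Let `P0` be the maximum of the bounds of CCF, TTF and `1`. `Good.bd`: `R = NP`. `Good.cas`: `C t ≤ 1`, so `0 ≤ t ≤ NP`. If `|t - iP| ≥ P/8` for all `i ≤ N`: `Flat` (CCF, TTF, SWF; `P/8 > 1/40`). If `|t - iP| < P/8`,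
`i = 0` or `i = N`: near `t`, `C = exp(∓4(..))`, `C'/2 = ∓2C`, `C''/2 = 8C`, ENC; in the cap case `TTF` gives `cos θ = -1, sin θ = 0` near `t` and SWF gives `LocConst` (`|t - jP| ≥ 7P/8 > 1/40` for `1 ≤ j < N`). If `1 ≤ i < N`: `C = hN(t - iP)` near `t`, HNC (the cases `hN ≤ 0.9424`,
`hN ≥ 0.9424`): in the cap case `hN ≤ 0.9424`, so `|t - iP| > 1/40` by HNB. -/
def GDD : Prop :=
  ∀ (r N : ℕ) (a : ℕ → Fin r → Bool) (b : ℕ → Bool) (d : ℕ → ℤ), 1 ≤ N →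
    ∃ P0 : ℝ, 1 ≤ P0 ∧ ∀ P : ℝ, P0 ≤ P → Good (dat r N a b d P)

end Pool.Agent.Helper76.CV
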