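import Pool.Agent.Helper76.CV.Goals

namespace Pool.Agent.Helper76.CV.CAC

theorem p1_0_p (u v : ℝ) (hu : 0 ≤ u) (hv : 0 ≤ v) : 0 ≤
    (30625 / 64) * u ^ 0 * v ^ 4 +
    (377545 / 4) * u ^ 1 * v ^ 3 +
    (183848441 / 1600) * u ^ 2 * v ^ 2 +
    (28736197 / 800) * u ^ 3 * v ^ 1 +
    (204281 / 400) * u ^ 4 * v ^ 0 := by positivity

theorem p1_0 (z : ℝ) (h1 : 0 ≤ z) (h2 : z ≤ (2 / 5)) : 0 ≤ 50 * (49 / 4 * (1 - z) * (1 - 98 / 100 * z)) - (245 / 10 - 14553 / 100 * z + 12005 / 100 * z ^ 2) ^ 2 := by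
  have h := p1_0_p (z - 0) ((2 / 5) - z) (by linarith) (by linarith)
  refine h.trans_eq ?_
  ring

theorem p1 (z : ℝ) (h1 : 0 ≤ z) (h2 : z ≤ (2 / 5)) : 0 ≤ 50 * (49 / 4 * (1 - z) * (1 - 98 / 100 * z)) - (245 / 10 - 14553 / 100 * z + 12005 / 100 * z ^ 2) ^ 2 := by
  exact p1_0 z (by linarith) (by linarith)

theorem p2_0_p (u v : ℝ) (hu : 0 ≤ u) (hv : 0 ≤ v) : 0 ≤
    (79063827500000000 / 1229457398481) * u ^ 0 * v ^ 4 +
    (172107739160000000 / 1229457398481) * u ^ 1 * v ^ 3 +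
    (30232568271443125 / 409819132827) * u ^ 2 * v ^ 2 +
    (32023892145669865 / 2458914796962) * u ^ 3 * v ^ 1 +
    (255683927181555719 / 491782959392400) * u ^ 4 * v ^ 0 := by positivity

theorem p2_0 (z : ℝ) (h1 : (2 / 5) ≤ z) (h2 : z ≤ (2053 / 2500)) : 0 ≤ 500 * (49 / 4 * (1 - z) * (1 - 98 / 100 * z)) - (245 / 10 - 14553 / 100 * z + 12005 / 100 * z ^ 2) ^ 2 := by
  have h := p2_0_p (z - (2 / 5)) ((2053 / 2500) - z) (by linarith) (by linarith)
  refine h.trans_eq ?_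
  ring

theorem p2 (z : ℝ) (h1 : (2 / 5) ≤ z) (h2 : z ≤ (2053 / 2500)) : 0 ≤ 500 * (49 / 4 * (1 - z) * (1 - 98 / 100 * z)) - (245 / 10 - 14553 / 100 * z + 12005 / 100 * z ^ 2) ^ 2 := by
  exact p2_0 z (by linarith) (by linarith)

theorem t : CAC := by
  intro c z g k h0 h1 hz hg hk
  have z0 : 0 ≤ z := by rw [hz]; positivity
  have z1 : z ≤ 8212 / 10000 := by
    rw [hz]
    have : (c / (99 / 100)) ^ 4 ≤ (9424 / 10000 / (99 / 100)) ^ 4 := by
      apply pow_le_pow_left₀ (by positivity)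
      apply div_le_div_of_nonneg_right h1 (by norm_num)
    refine this.trans ?_
    norm_num
  rcases le_total z (4 / 10) with h | h
  · left
    have a := mul_nonneg (sq_nonneg c) (p1 z (by linarith) (by linarith))
    rw [hk, hg, mul_pow]
    linarith
  · right
    have a := mul_nonneg (sq_nonneg c) (p2 z (by linarith) (by linarith))
    refine ⟨?_, ?_⟩
    · by_contra hc
      push Not at hc
      have : (c / (99 / 100)) ^ 4 ≤ (6 / 10 / (99 / 100)) ^ 4 := by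
        apply pow_le_pow_left₀ (by positivity)
        apply div_le_div_of_nonneg_right hc.le (by norm_num)
      rw [← hz] at this
      norm_num at this
      linarith
    · rw [hk, hg, mul_pow]
      linarith

end Pool.Agent.Helper76.CV.CAC

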