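import Mathlib

/-!
# Project CV (MP_eec6f5_gt): capsules with linked tunnels, definitions

The hypersurface `X D` of dimension `r + 3` in the space `V r` of the points `((t, y), s)`, `t, s` real, `y ∈ ℝ^(r+3)`, and the
map `f` to `ℝ^(r+4)`.
-/

open scoped ContDiff
open Filter Topology

namespace Pool.Agent.Helper76.CV

/-- Euclidean space. -/
abbrev E (n : ℕ) := EuclideanSpace ℝ (Fin n)

/-- The ambient space: points `((t, y), s)`. -/
abbrev V (r : ℕ) := (ℝ × E (r + 3)) × ℝ

/-- `W w = w exp(-1/(1000 w))` for `w > 0` and `0` for `w ≤ 0`. -/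
noncomputable def W (w : ℝ) : ℝ := w * expNegInvGlue (1000 * w)

/-- The profile of a tunnel as a function of the square `q` of the distance to its axis. -/
noncomputable def Z (q : ℝ) : ℝ := 13 * W (4 / 25 - √(q + 1 / 10 ^ 6))

/-- A smooth step: `0` for `s ≤ -2/5`, `1` for `s ≥ 0`. -/
noncomputable def kap (s : ℝ) : ℝ := Real.smoothTransition (1 + 5 / 2 * s)

/-- Four functions of `t`: `|y|² + C t = 1` is the capsule, `θ` is the direction of the axis of the tunnel `A`, `α j = 1` if the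
coordinate `j + 3` is orthogonal to the axis of `A`, `0` if it is orthogonal to the axis of `B`; `β = 1` if there is a
tunnel `B`, `0` if not. -/
structure Dat (r : ℕ) where
  C : ℝ → ℝ
  θ : ℝ → ℝ
  α : Fin r → ℝ → ℝ
  β : ℝ → ℝ

variable {r : ℕ}

/-- The square of the distance to the axis of the tunnel `A` (in the slice `t`). -/
noncomputable def qA (D : Dat r) (x : ℝ × E (r + 3)) : ℝ :=
  (x.2 1 - 2 / 5 * Real.cos (D.θ x.1)) ^ 2 + (x.2 0 - 2 / 5 * Real.sin (D.θ x.1)) ^ 2 +
    ∑ j : Fin r, D.α j x.1 * (x.2 j.succ.succ.succ) ^ 2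

/-- The square of the distance to the axis of the tunnel `B` (in the slice `t`). -/
noncomputable def qB (D : Dat r) (x : ℝ × E (r + 3)) : ℝ :=
  ((12 * x.2 1 + 5 * x.2 2) / 13 - 2 / 5) ^ 2 + (x.2 0) ^ 2 +
    ∑ j : Fin r, (1 - D.α j x.1) * (x.2 j.succ.succ.succ) ^ 2

noncomputable def ZA (D : Dat r) (x : ℝ × E (r + 3)) : ℝ := Z (qA D x)

noncomputable def ZB (D : Dat r) (x : ℝ × E (r + 3)) : ℝ := D.β x.1 * Z (qB D x)

/-- `1 - |y|² - C t`. -/
noncomputable def U (D : Dat r) (x : ℝ × E (r + 3)) : ℝ := 1 - ‖x.2‖ ^ 2 - D.C x.1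

/-- The two equations of `X D`. -/
noncomputable def H (D : Dat r) (p : V r) : ℝ × ℝ :=
  (Real.cos p.2 - Real.exp (-(13 / 2 * U D p.1)),
    p.2 - kap p.2 * ZA D p.1 + kap (-p.2) * ZB D p.1)

/-- The hypersurface. -/
def X (D : Dat r) : Set (V r) := {p | H D p = 0}

/-- `ξ` is a tangent vector of `X D` at `p`. -/
def Tan (D : Dat r) (p ξ : V r) : Prop := fderiv ℝ (H D) p ξ = 0

/-- The capsule is wrapped around a circle of radius `5/4`. -/
noncomputable def Q (x : ℝ × E (r + 3)) : E (r + 4) :=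
  WithLp.toLp 2 (Fin.cons ((5 / 4 + x.2 0) * Real.cos (4 / 5 * x.1))
    (Fin.cons ((5 / 4 + x.2 0) * Real.sin (4 / 5 * x.1)) (fun i : Fin (r + 2) => x.2 i.succ)))

/-- The map to the unit ball. -/
noncomputable def f (p : V r) : E (r + 4) := (4 / 9 : ℝ) • Q p.1

/-- The acceleration of a curve. -/
noncomputable def acc {n : ℕ} (γ : ℝ → E n) (t : ℝ) : E n := deriv (deriv γ) t

/-- `f` is an immersion on `X D`: its differential is injective on the tangent vectors. -/
def ImmOn (D : Dat r) : Prop := ∀ p ∈ X D, ∀ ξ, Tan D p ξ → fderiv ℝ (f (r := r)) p ξ = 0 → ξ = 0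

/-- The curvature of `f` on `X D` is at most `K`: `|(f ∘ c)''(t)| ≤ K` for every curve `c` in `X D`, `C²` at `t`, such that
`f ∘ c` has unit speed at `t` and `(f ∘ c)''(t)` is orthogonal to the image of the tangent space of `X D` (for
instance, at all points of a unit speed geodesic of the induced metric). -/
def CurvLE (D : Dat r) (K : ℝ) : Prop :=
  ∀ (c : ℝ → V r) (t : ℝ), ContDiffAt ℝ 2 c t → (∀ᶠ s in 𝓝 t, c s ∈ X D) →
    ‖deriv (f ∘ c) t‖ = 1 →
    (∀ ξ, Tan D (c t) ξ → inner ℝ (acc (f ∘ c) t) (fderiv ℝ (f (r := r)) (c t) ξ) = 0) →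
    ‖acc (f ∘ c) t‖ ≤ K

/-! ## The explicit data -/

/-- A smooth function of `t`: `1` for `t ≤ P/8`, `0` for `t ≥ P/4`. -/
noncomputable def chi (P t : ℝ) : ℝ := Real.smoothTransition (2 - 8 * t / P)

/-- The neck: `h τ = (99/100) ((99 + cosh 28τ)/100)^(-1/4)`. -/
noncomputable def hN (τ : ℝ) : ℝ :=
  99 / 100 * Real.exp (-(1 / 4 * Real.log ((99 + Real.cosh (28 * τ)) / 100)))

/-- The function `C`: ends at `t = 0` and `t = N P`, necks at `t = i P`, `1 ≤ i < N`, `C = 0` in the middle of the `N` windows. -/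
noncomputable def CC (N : ℕ) (P t : ℝ) : ℝ :=
  chi P t * Real.exp (-(4 * t)) + chi P (N * P - t) * Real.exp (4 * (t - N * P)) +
    ∑ i ∈ Finset.Ico 1 N, chi P (t - i * P) * chi P (i * P - t) * hN (t - i * P)

/-- The tunnel `A` makes `d i` turns in the middle of the window `i`. -/
noncomputable def TT (N : ℕ) (d : ℕ → ℤ) (P t : ℝ) : ℝ :=
  Real.pi + 2 * Real.pi * ∑ i ∈ Finset.range N, d i * Real.smoothTransition (4 * (t - i * P) / P - 3 / 2)

/-- A function with the value `a i` in the window `i`, the changes are at the centres of the necks. -/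
noncomputable def sw (N : ℕ) (a : ℕ → ℝ) (P t : ℝ) : ℝ :=
  a 0 + ∑ i ∈ Finset.Ico 1 N, (a i - a (i - 1)) * Real.smoothTransition (20 * (t - i * P) + 1 / 2)

/-- The data with `N` windows, `a i j = true` if the coordinate `j + 3` is orthogonal to the axis of `A` in the window `i`, `b i = true` if
there is a tunnel `B` in the window `i`, `d i` turns of `A` in the window `i`. -/
noncomputable def dat (r N : ℕ) (a : ℕ → Fin r → Bool) (b : ℕ → Bool) (d : ℕ → ℤ) (P : ℝ) : Dat r where
  C := CC N P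
  θ := TT N d P
  α := fun j => sw N (fun i => if a i j then 1 else 0) P
  β := sw N (fun i => if b i then 1 else 0) P

end Pool.Agent.Helper76.CV
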