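import Pool.Agent.Helper76.CV.Goals

/-!
# Project CV: final assembly
-/

open scoped ContDiff
open Filter Topology

namespace Pool.Agent.Helper76.CV.Final

/-- The theorem, from the last goals. -/
theorem main (hCMP : CMP) (hSMH : SMH) (hXB : XB) (hWRA : WRA) (hWRB : WRB) (hFIS : FIS) (hFIC : FIC)
    (hLOA : LOA) (hNFT : NFT) (hNFB : NFB) (hGDD : GDD) :
    ∀ (r N : ℕ) (a : ℕ → Fin r → Bool) (b : ℕ → Bool) (d : ℕ → ℤ), 1 ≤ N →
    ∃ P0 : ℝ, ∀ P : ℝ, P0 ≤ P →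
      IsCompact (X (dat r N a b d P)) ∧ ContDiff ℝ ∞ (H (dat r N a b d P)) ∧
      (∀ p ∈ X (dat r N a b d P), Function.Surjective (fderiv ℝ (H (dat r N a b d P)) p)) ∧
      ContDiff ℝ ∞ (f (r := r)) ∧ (∀ p ∈ X (dat r N a b d P), ‖f p‖ ≤ 1) ∧
      ImmOn (dat r N a b d P) ∧ CurvLE (dat r N a b d P) 100 := by
  intro r N a b d hN
  obtain ⟨P0, -, hP0⟩ := hGDD r N a b d hN
  refine ⟨P0, fun P hP => ?_⟩
  have hG := hP0 P hP
  have hNF : ∀ p ∈ X (dat r N a b d P), NF (dat r N a b d P) p := by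
    intro p hp
    obtain ⟨z, hz, h | ⟨Q, c, e, hT, he, h⟩⟩ := hLOA r _ p hG hp
    · exact hNFB r _ p z hG hp hz h
    · exact hNFT r _ p z Q c e hG hp hz hT he h
  obtain ⟨h1, h2⟩ := hFIS r _ hG hNF
  refine ⟨hCMP r _ hG, (hSMH r _ hG).2.2.2, h1, (hWRB r).2.1, ?_, h2, hFIC r _ hG hNF⟩
  intro p hp
  have := hWRA.2.2 r p.1 (hXB r _ p hG hp).2.2.1
  rw [f, norm_smul, Real.norm_of_nonneg (by norm_num)]
  linarith

end Pool.Agent.Helper76.CV.Final
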