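import Pool.Agent.Helper76.CV.Goals

open scoped ContDiff
open Filter Topology

namespace Pool.Agent.Helper76.CV.GDD

theorem dexp (c : ℝ) (s : ℝ) (t : ℝ) : deriv (fun u => Real.exp (s * (u - c))) t = s * Real.exp (s * (t - c)) := by
  have h : HasDerivAt (fun u : ℝ => s * (u - c)) (s * 1) t :=
    ((hasDerivAt_id t).sub_const c).const_mul s
  rw [(h.exp).deriv]
  ring

theorem dexp2 (c : ℝ) (s : ℝ) (t : ℝ) :
    deriv (deriv (fun u => Real.exp (s * (u - c)))) t = s ^ 2 * Real.exp (s * (t - c)) := by
  have : deriv (fun u => Real.exp (s * (u - c))) = fun u => s * Real.exp (s * (u - c)) := by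
    funext u; exact dexp c s u
  rw [this, deriv_const_mul_field, dexp]
  ring

theorem t (hB : HNB) (hC : HNC) (hE : ENC) (hF : CCF) (hS : CCS) (hT : TTF) (hW : SWF) : GDD := by
  intro r N a b d hN1
  obtain ⟨P1, hP1, hF1⟩ := hF N hN1
  obtain ⟨hTs, ⟨P2, hP2, hT1⟩, hT2⟩ := hT N d
  refine ⟨max P1 P2, le_max_of_le_left hP1, fun P hP => ?_⟩
  have hP1' : P1 ≤ P := (le_max_left _ _).trans hP
  have hP2' : P2 ≤ P := (le_max_right _ _).trans hP
  have h1P : 1 ≤ P := hP1.trans hP1'
  obtain ⟨sC, nC, rC, e0, e1, e2⟩ := hS N P hN1 h1P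
  obtain ⟨sS, sI, sL⟩ := hW N P hN1 h1P
  have bool01 : ∀ c : Bool, (0 : ℝ) ≤ (if c then 1 else 0) ∧ (if c then (1 : ℝ) else 0) ≤ 1 := by
    intro c; cases c <;> simp
  have loc : ∀ t : ℝ, (∀ i : ℕ, 1 ≤ i → i < N → 1 / 40 < |t - i * P|) →
      LocConst (dat r N a b d P) t := by
    intro t ht
    obtain ⟨k, hk⟩ := sL t ht
    refine ⟨⟨a k, ?_⟩, ?_⟩
    · filter_upwards [hk] with u hu j
      exact hu (fun i => if a i j then 1 else 0)
    · cases hb : b k
      · left
        filter_upwards [hk] with u hu
        have := hu (fun i => if b i then 1 else 0)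
        simp only [hb] at this
        exact this
      · right
        filter_upwards [hk] with u hu
        have := hu (fun i => if b i then 1 else 0)
        simp only [hb] at this
        exact this
  have ends : ∀ (t c s : ℝ) (i : ℕ), (s = 4 ∨ s = -4) → |t - i * P| < P / 8 → CC N P t ≤ 1 →
      (∀ᶠ u in 𝓝 t, CC N P u = Real.exp (s * (u - c))) →
      (∀ i : ℕ, 1 ≤ i → i < N → 1 / 40 < |t - i * P|) →
      Flat (dat r N a b d P) t ∨ Cap (dat r N a b d P) t ∨ Neck (dat r N a b d P) t := by
    intro t c s i hs hi ht he hl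
    have he' : CC N P =ᶠ[𝓝 t] fun u => Real.exp (s * (u - c)) := he
    have v0 : CC N P t = Real.exp (s * (t - c)) := he.self_of_nhds
    have v1 : deriv (CC N P) t = s * Real.exp (s * (t - c)) := by rw [he'.deriv_eq, dexp]
    have v2 : deriv (deriv (CC N P)) t = s ^ 2 * Real.exp (s * (t - c)) := by
      rw [he'.deriv.deriv_eq, dexp2]
    have := hE (CC N P t) (deriv (CC N P) t / 2) (by rw [v0]; positivity) ht (by
      rw [v1, v0]
      rcases hs with rfl | rfl
      · left; ring
      · right; ring)
    have e8 : 8 * CC N P t = deriv (deriv (CC N P)) t / 2 := by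
      rw [v2, v0]
      rcases hs with rfl | rfl <;> ring
    rw [e8] at this
    rcases this with h | h
    · exact Or.inr (Or.inl ⟨h, hT2 P t i h1P hi, loc t hl⟩)
    · exact Or.inr (Or.inr h)
  refine ⟨sC, hTs P, fun j => sS (fun i => if a i j then 1 else 0), sS (fun i => if b i then 1 else 0), nC,
    fun j t => (sI (fun i => if a i j then 1 else 0) t fun i => bool01 _).1,
    fun j t => (sI (fun i => if a i j then 1 else 0) t fun i => bool01 _).2,
    fun t => (sI (fun i => if b i then 1 else 0) t fun i => bool01 _).1,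
    fun t => (sI (fun i => if b i then 1 else 0) t fun i => bool01 _).2, ⟨N * P, ?_⟩, ?_⟩
  · intro t ht
    obtain ⟨h1, h2⟩ := rC t ht
    rw [abs_of_nonneg h1]
    exact h2
  · intro t ht
    have ht' : CC N P t ≤ 1 := ht
    obtain ⟨t0, tN⟩ := rC t ht'
    have far : ∀ i j : ℕ, i ≠ j → |t - i * P| < P / 8 → 1 / 40 < |t - j * P| := by
      intro i j hij hi
      have h1 : (1 : ℝ) ≤ |(i : ℝ) - j| := by
        have : (i : ℤ) - j ≠ 0 := by omega
        have := Int.one_le_abs this
        exact_mod_cast this
      have h2 : |(i : ℝ) - j| * P ≤ |t - i * P| + |t - j * P| := by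
        have e : |(i : ℝ) - j| * P = |(i * P : ℝ) - j * P| := by
          rw [← sub_mul, abs_mul, abs_of_nonneg (by linarith : (0 : ℝ) ≤ P)]
        rw [e]
        have := abs_sub_le (i * P : ℝ) t (j * P)
        rw [abs_sub_comm (i * P : ℝ) t] at this
        exact this
      nlinarith
    by_cases hex : ∃ i : ℕ, i ≤ N ∧ |t - i * P| < P / 8
    · obtain ⟨i, hiN, hi⟩ := hex
      rcases Nat.eq_zero_or_pos i with h0 | hpos
      · subst h0
        have hi' : |t| < P / 8 := by simpa using hi
        refine ends t 0 (-4) 0 (Or.inr rfl) hi ht' ?_ fun j hj _ => far 0 j (by omega) hi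
        filter_upwards [e0 t hi'] with u hu
        rw [hu]
        congr 1
        ring
      rcases hiN.lt_or_eq with hlt | heq
      · have he := e2 i t hpos hlt hi
        have he' : CC N P =ᶠ[𝓝 t] fun u => hN (u - i * P) := he
        have v0 : CC N P t = hN (t - i * P) := he.self_of_nhds
        have v1 : deriv (CC N P) t = deriv hN (t - i * P) := by
          rw [he'.deriv_eq, deriv_comp_sub_const]
        have v2 : deriv (deriv (CC N P)) t = deriv (deriv hN) (t - i * P) := by
          rw [he'.deriv.deriv_eq]
          have : deriv (fun u => hN (u - i * P)) = fun u => deriv hN (u - i * P) := by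
            funext u; rw [deriv_comp_sub_const]
          rw [this, deriv_comp_sub_const]
        rcases hC (t - i * P) with h | h
        · refine Or.inr (Or.inl ⟨?_, hT2 P t i h1P hi, loc t ?_⟩)
          · have := h.1
            rw [← v0, ← v1, ← v2] at this
            exact this
          · intro j hj hjN
            by_cases hij : i = j
            · subst hij
              by_contra hcon
              push Not at hcon
              have := hB.2 _ hcon
              linarith [h.2]
            · exact far i j hij hi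
        · refine Or.inr (Or.inr ?_)
          have := h.1
          rw [← v0, ← v1, ← v2] at this
          exact this
      · subst heq
        refine ends t (i * P) 4 i (Or.inl rfl) hi ht' (e1 t hi) fun j hj hjN =>
          far i j (by omega) hi
    · push Not at hex
      obtain ⟨s0, s1, s2⟩ := hF1 P t hP1' t0 tN hex
      obtain ⟨u1, u2⟩ := hT1 P t hP2'
      refine Or.inl ⟨⟨nC t, (le_abs_self _).trans s0, ?_, ?_⟩, u1, u2, loc t ?_⟩
      · change |deriv (CC N P) t / 2| ≤ _
        rw [abs_div, abs_of_pos (by norm_num : (0 : ℝ) < 2)]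
        linarith [abs_nonneg (deriv (CC N P) t)]
      · change |deriv (deriv (CC N P)) t / 2| ≤ _
        rw [abs_div, abs_of_pos (by norm_num : (0 : ℝ) < 2)]
        linarith [abs_nonneg (deriv (deriv (CC N P)) t)]
      · intro i hi hiN
        have := hex i hiN.le
        linarith

end Pool.Agent.Helper76.CV.GDD
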