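import Pool.Agent.Helper76.CV.Goals

open scoped ContDiff
open Filter Topology

namespace Pool.Agent.Helper76.CV.HNA

theorem Dpos (τ : ℝ) : 1 ≤ (99 + Real.cosh (28 * τ)) / 100 := by
  have := Real.one_le_cosh (28 * τ)
  linarith

theorem smooth : ContDiff ℝ ∞ hN := by
  unfold hN
  have h1 : ContDiff ℝ ∞ fun τ : ℝ => (99 + Real.cosh (28 * τ)) / 100 := by
    have : ContDiff ℝ ∞ fun τ : ℝ => Real.cosh (28 * τ) :=
      Real.contDiff_cosh.comp (contDiff_const.mul contDiff_id)
    exact (contDiff_const.add this).div_const _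
  have h2 : ContDiff ℝ ∞ fun τ : ℝ => Real.log ((99 + Real.cosh (28 * τ)) / 100) :=
    h1.log fun τ => by have := Dpos τ; positivity
  exact contDiff_const.mul (Real.contDiff_exp.comp (contDiff_const.mul h2).neg)

theorem pos (τ : ℝ) : 0 < hN τ := by unfold hN; positivity

theorem dc (τ : ℝ) : HasDerivAt (fun τ : ℝ => Real.cosh (28 * τ)) (28 * Real.sinh (28 * τ)) τ := by
  have h : HasDerivAt (fun τ : ℝ => 28 * τ) (28 * 1) τ := (hasDerivAt_id τ).const_mul 28
  have := h.cosh
  refine this.congr_deriv ?_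
  ring

theorem ds (τ : ℝ) : HasDerivAt (fun τ : ℝ => Real.sinh (28 * τ)) (28 * Real.cosh (28 * τ)) τ := by
  have h : HasDerivAt (fun τ : ℝ => 28 * τ) (28 * 1) τ := (hasDerivAt_id τ).const_mul 28
  have := h.sinh
  refine this.congr_deriv ?_
  ring

theorem d1 (τ : ℝ) : HasDerivAt hN (-(7 * Real.sinh (28 * τ) * hN τ / (99 + Real.cosh (28 * τ)))) τ := by
  have h1 := ((dc τ).const_add 99).div_const 100
  have h0 : (99 + Real.cosh (28 * τ)) / 100 ≠ 0 := by have := Dpos τ; positivity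
  have h2 := ((h1.log h0).const_mul (1 / 4)).neg.exp.const_mul (99 / 100)
  have h3 : HasDerivAt hN (99 / 100 * (Real.exp (-(1 / 4 * Real.log ((99 + Real.cosh (28 * τ)) / 100))) *
    -(1 / 4 * (28 * Real.sinh (28 * τ) / 100 / ((99 + Real.cosh (28 * τ)) / 100))))) τ := h2
  refine h3.congr_deriv ?_
  have hD : (99 + Real.cosh (28 * τ)) ≠ 0 := by have := Dpos τ; intro h; rw [h] at this; norm_num at this
  unfold hN
  field_simp
  ring

theorem d2 (τ : ℝ) : deriv (deriv hN) τ =
    -(7 * hN τ * (28 * Real.cosh (28 * τ) / (99 + Real.cosh (28 * τ)) -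
      35 * Real.sinh (28 * τ) ^ 2 / (99 + Real.cosh (28 * τ)) ^ 2)) := by
  have e : deriv hN = fun τ => -(7 * Real.sinh (28 * τ) * hN τ / (99 + Real.cosh (28 * τ))) := by
    funext τ; exact (d1 τ).deriv
  have hD : (99 + Real.cosh (28 * τ)) ≠ 0 := by
    have := Dpos τ; intro h; rw [h] at this; norm_num at this
  rw [e]
  have h := ((((ds τ).const_mul 7).mul (d1 τ)).div ((dc τ).const_add 99) hD).neg
  have h' : HasDerivAt (fun τ => -(7 * Real.sinh (28 * τ) * hN τ / (99 + Real.cosh (28 * τ))))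
      (-(((7 * (28 * Real.cosh (28 * τ)) * hN τ +
              7 * Real.sinh (28 * τ) * -(7 * Real.sinh (28 * τ) * hN τ / (99 + Real.cosh (28 * τ)))) *
            (99 + Real.cosh (28 * τ)) -
          (7 * Real.sinh (28 * τ) * hN τ) * (28 * Real.sinh (28 * τ))) /
        (99 + Real.cosh (28 * τ)) ^ 2)) τ := h
  rw [h'.deriv]
  field_simp
  ring

theorem hz (τ : ℝ) : (hN τ / (99 / 100)) ^ 4 = 100 / (99 + Real.cosh (28 * τ)) := by
  have h0 : 0 < (99 + Real.cosh (28 * τ)) / 100 := by have := Dpos τ; linarith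
  have : hN τ / (99 / 100) = Real.exp (-(1 / 4 * Real.log ((99 + Real.cosh (28 * τ)) / 100))) := by
    unfold hN; field_simp
  rw [this, ← Real.exp_nat_mul]
  have e : ((4 : ℕ) : ℝ) * -(1 / 4 * Real.log ((99 + Real.cosh (28 * τ)) / 100)) =
      -Real.log ((99 + Real.cosh (28 * τ)) / 100) := by push_cast; ring
  rw [e, Real.exp_neg, Real.exp_log h0, inv_div]

theorem t : HNA := by
  refine ⟨smooth, fun τ => ⟨pos τ, ?_, ?_, ?_⟩⟩
  · unfold hN
    have h0 : 0 ≤ Real.log ((99 + Real.cosh (28 * τ)) / 100) := Real.log_nonneg (Dpos τ)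
    have : Real.exp (-(1 / 4 * Real.log ((99 + Real.cosh (28 * τ)) / 100))) ≤ 1 := by
      rw [Real.exp_le_one_iff]
      linarith
    linarith
  · rw [hz, (d1 τ).deriv]
    have hD : (99 + Real.cosh (28 * τ)) ≠ 0 := by
      have := Dpos τ; intro h; rw [h] at this; norm_num at this
    have hs : Real.sinh (28 * τ) ^ 2 = Real.cosh (28 * τ) ^ 2 - 1 := by
      have := Real.cosh_sq (28 * τ); linarith
    have e : (-(7 * Real.sinh (28 * τ) * hN τ / (99 + Real.cosh (28 * τ))) / 2) ^ 2 =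
        49 / 4 * hN τ ^ 2 * (Real.sinh (28 * τ) ^ 2 / (99 + Real.cosh (28 * τ)) ^ 2) := by
      field_simp
      ring
    rw [e, hs]
    field_simp
    ring
  · have h8 : (hN τ / (99 / 100)) ^ 8 = (100 / (99 + Real.cosh (28 * τ))) ^ 2 := by
      rw [← hz, ← pow_mul]
    rw [h8, hz, d2]
    have hD : (99 + Real.cosh (28 * τ)) ≠ 0 := by
      have := Dpos τ; intro h; rw [h] at this; norm_num at this
    have hs : Real.sinh (28 * τ) ^ 2 = Real.cosh (28 * τ) ^ 2 - 1 := by
      have := Real.cosh_sq (28 * τ); linarith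
    rw [hs]
    field_simp
    ring

end Pool.Agent.Helper76.CV.HNA
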