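import Pool.Agent.Helper76.CV.CAA
import Pool.Agent.Helper76.CV.CAB
import Pool.Agent.Helper76.CV.CAC
import Pool.Agent.Helper76.CV.NEK

namespace Pool.Agent.Helper76.CV.HNC

theorem t (hA : HNA) : HNC := by
  intro τ
  obtain ⟨-, h⟩ := hA
  obtain ⟨h0, h1, hg, hk⟩ := h τ
  have hk' : deriv (deriv hN) τ / 2 = hN τ * (245 / 10 - 14553 / 100 * (hN τ / (99 / 100)) ^ 4 +
      12005 / 100 * ((hN τ / (99 / 100)) ^ 4) ^ 2) := by
    rw [hk, ← pow_mul]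
  rcases le_total (hN τ) (9424 / 10000) with h2 | h2
  · left
    obtain ⟨a1, a2, a3⟩ := CAA.t (hN τ) _ h0 h2 rfl
    have b := CAB.t (hN τ) _ _ _ h0 h2 rfl hg hk'
    have c := CAC.t (hN τ) _ _ _ h0 h2 rfl hg hk'
    rw [← hk'] at a1 a2
    rw [← hg] at a3
    exact ⟨⟨h0.le, h2, a1, a2, a3, b, c⟩, h2⟩
  · right
    obtain ⟨a1, a2⟩ := NEK.t (hN τ) _ _ _ _ h2 h1 rfl hg hk' rfl
    exact ⟨⟨h2, by linarith, a1, a2⟩, h2⟩

end Pool.Agent.Helper76.CV.HNC
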