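import Pool.Agent.Helper76.CV.Goals

open scoped ContDiff
open Filter Topology

namespace Pool.Agent.Helper76.CV.LOZ

variable {r : ℕ}

theorem kap1 (hK : KAP) {s : ℝ} (h : 0 < s) : deriv kap s = 0 := by
  have : kap =ᶠ[𝓝 s] fun _ => 1 := by
    filter_upwards [lt_mem_nhds h] with u hu
    exact hK.2.2.1 u hu.le
  rw [this.deriv_eq]
  simp

theorem kap0 (hK : KAP) {s : ℝ} (h : s < -(2 / 5)) : deriv kap s = 0 := by
  have : kap =ᶠ[𝓝 s] fun _ => 0 := by
    filter_upwards [gt_mem_nhds h] with u hu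
    exact hK.2.2.2 u hu.le
  rw [this.deriv_eq]
  simp

theorem HD (hK : KAP) (hS : SMH) {D : Dat r} (hG : Good D) (p ξ : V r) :
    fderiv ℝ (H D) p ξ =
      (-(Real.sin p.2 * ξ.2) + 13 / 2 * Real.exp (-(13 / 2 * U D p.1)) * fderiv ℝ (U D) p.1 ξ.1,
        ξ.2 - (deriv kap p.2 * ξ.2 * ZA D p.1 + kap p.2 * fderiv ℝ (ZA D) p.1 ξ.1) +
          (-(deriv kap (-p.2) * ξ.2) * ZB D p.1 + kap (-p.2) * fderiv ℝ (ZB D) p.1 ξ.1)) := by
  obtain ⟨hZA, hZB, hU, hH⟩ := hS r D hG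
  have dA : HasFDerivAt (fun q : V r => ZA D q.1)
      ((fderiv ℝ (ZA D) p.1).comp (ContinuousLinearMap.fst ℝ _ _)) p :=
    ((hZA.differentiable (by simp)) p.1).hasFDerivAt.comp p hasFDerivAt_fst
  have dB : HasFDerivAt (fun q : V r => ZB D q.1)
      ((fderiv ℝ (ZB D) p.1).comp (ContinuousLinearMap.fst ℝ _ _)) p :=
    ((hZB.differentiable (by simp)) p.1).hasFDerivAt.comp p hasFDerivAt_fst
  have dU : HasFDerivAt (fun q : V r => U D q.1)
      ((fderiv ℝ (U D) p.1).comp (ContinuousLinearMap.fst ℝ _ _)) p :=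
    ((hU.differentiable (by simp)) p.1).hasFDerivAt.comp p hasFDerivAt_fst
  have d2 : HasFDerivAt (fun q : V r => q.2) (ContinuousLinearMap.snd ℝ _ _) p := hasFDerivAt_snd
  have dk : HasDerivAt kap (deriv kap p.2) p.2 := ((hK.1.differentiable (by simp)) p.2).hasDerivAt
  have dk' : HasDerivAt kap (deriv kap (-p.2)) (-p.2) :=
    ((hK.1.differentiable (by simp)) (-p.2)).hasDerivAt
  have k1 := dk.comp_hasFDerivAt p d2
  have k2 := dk'.comp_hasFDerivAt p d2.neg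
  have c1 := (Real.hasDerivAt_cos p.2).comp_hasFDerivAt p d2
  have e1 := (dU.const_mul (13 / 2)).neg.exp
  have h1 := c1.sub e1
  have h2 := (d2.sub (k1.mul dA)).add (k2.mul dB)
  have h := h1.prodMk h2
  have h' : HasFDerivAt (H D) _ p := h
  rw [h'.fderiv]
  ext
  · simp
    ring
  · simp
    ring

theorem key (hZ : ZP) (hS : SMH) (hX : XB) (hD : DISJ) {D : Dat r} (hG : Good D) {p : V r}
    (hp : p ∈ X D) (hs : |p.2| ≤ 2 / 5) :
    (∀ᶠ x in 𝓝 p.1, ZA D x = 0) ∨ (∀ᶠ x in 𝓝 p.1, ZB D x = 0) := by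
  obtain ⟨hc, hU0, hy, hC, -, -⟩ := hX r D p hG hp
  obtain ⟨⟨t, y⟩, s⟩ := p
  simp only at hc hU0 hy hC hs ⊢
  have hU : U D (t, y) < 1 / 50 := by
    by_contra hcon
    push Not at hcon
    have h1 : (1 : ℝ) - s ^ 2 / 2 ≤ Real.cos s := Real.one_sub_sq_div_two_le_cos
    have h2 : s ^ 2 ≤ (2 / 5) ^ 2 := sq_le_sq' (by linarith [abs_le.1 hs]) (by linarith [abs_le.1 hs])
    have h3 : Real.exp (-(13 / 2 * U D (t, y))) ≤ Real.exp (-(13 / 100)) :=
      Real.exp_le_exp.2 (by linarith)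
    have h4 : Real.exp (-(13 / 100 : ℝ)) < 92 / 100 := by
      rw [Real.exp_neg]
      have := Real.add_one_le_exp (13 / 100 : ℝ)
      rw [inv_lt_comm₀ (Real.exp_pos _) (by norm_num)]
      refine lt_of_lt_of_le ?_ this
      norm_num
    linarith
  have cA : Continuous (qA D) := by
    unfold qA
    have h1 := hG.sθ.continuous
    have h2 := fun j => (hG.sα j).continuous
    fun_prop
  have cB : Continuous (qB D) := by
    unfold qB
    have h2 := fun j => (hG.sα j).continuous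
    fun_prop
  have rA : (4 / 25 : ℝ) ^ 2 ≤ qA D (t, y) → ∀ᶠ x in 𝓝 (t, y), ZA D x = 0 := fun h =>
    (cA.tendsto _).eventually (hZ.2.2 _ h)
  have rB : (4 / 25 : ℝ) ^ 2 ≤ qB D (t, y) → ∀ᶠ x in 𝓝 (t, y), ZB D x = 0 := fun h => by
    filter_upwards [(cB.tendsto _).eventually (hZ.2.2 _ h)] with x hx
    rw [ZB, hx, mul_zero]
  have hny : ‖y‖ ^ 2 = 1 - D.C t - U D (t, y) := by simp [U]
  have loc : LocConst D t → (19 / 20 < ‖y‖ ^ 2 ∨ (Real.cos (D.θ t) = -1 ∧ Real.sin (D.θ t) = 0)) →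
      (∀ᶠ x in 𝓝 (t, y), ZA D x = 0) ∨ (∀ᶠ x in 𝓝 (t, y), ZB D x = 0) := by
    rintro ⟨⟨A, hA⟩, hβ⟩ hor
    rcases hβ with hβ | hβ
    · right
      have : ∀ᶠ x : ℝ × E (r + 3) in 𝓝 (t, y), D.β x.1 = 0 :=
        (continuous_fst.tendsto (t, y)).eventually hβ
      filter_upwards [this] with x hx
      rw [ZB, hx, zero_mul]
    · by_contra hcon
      rw [not_or] at hcon
      have q1 : qA D (t, y) ≤ (4 / 25) ^ 2 := by
        by_contra h
        exact hcon.1 (rA (not_le.1 h).le)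
      have q2 : qB D (t, y) ≤ (4 / 25) ^ 2 := by
        by_contra h
        exact hcon.2 (rB (not_le.1 h).le)
      have hAt := hA.self_of_nhds
      have := hD r A (D.θ t) y hy (by
        have e : qA D (t, y) = (y 1 - 2 / 5 * Real.cos (D.θ t)) ^ 2 +
            (y 0 - 2 / 5 * Real.sin (D.θ t)) ^ 2 +
            ∑ j : Fin r, (if A j then (1 : ℝ) else 0) * (y j.succ.succ.succ) ^ 2 := by
          simp only [qA, hAt]
        rw [← e]
        exact q1) (by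
        have e : qB D (t, y) = ((12 * y 1 + 5 * y 2) / 13 - 2 / 5) ^ 2 + (y 0) ^ 2 +
            ∑ j : Fin r, (1 - (if A j then (1 : ℝ) else 0)) * (y j.succ.succ.succ) ^ 2 := by
          simp only [qB, hAt]
        rw [← e]
        exact q2)
      rcases hor with h | h
      · linarith [this.1]
      · exact this.2 h
  rcases hG.cas t hC with h | h | h
  · refine loc h.2.2.2 (Or.inl ?_)
    rw [hny]
    have := h.1.2.1
    linarith
  · exact loc h.2.2 (Or.inr h.2.1.self_of_nhds)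
  · left
    apply rA
    have hC' := h.1
    have h0 : ‖y‖ ^ 2 ≤ 576 / 10000 := by rw [hny]; linarith
    have h1 : (y 0) ^ 2 + (y 1) ^ 2 ≤ ‖y‖ ^ 2 := by
      rw [EuclideanSpace.norm_sq_eq, Fin.sum_univ_succ, Fin.sum_univ_succ]
      have : (0 : ℝ) ≤ ∑ i : Fin (r + 1), ‖y i.succ.succ‖ ^ 2 :=
        Finset.sum_nonneg fun i _ => by positivity
      simp only [Real.norm_eq_abs, sq_abs] at this ⊢
      have e1 : y (Fin.succ (0 : Fin (r + 2))) = y 1 := rfl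
      rw [e1]
      linarith
    have h2 : (0 : ℝ) ≤ ∑ j : Fin r, D.α j t * (y j.succ.succ.succ) ^ 2 :=
      Finset.sum_nonneg fun j _ => mul_nonneg (hG.α0 j t) (sq_nonneg _)
    have h3 : (4 / 25 : ℝ) ^ 2 ≤ (y 1 - 2 / 5 * Real.cos (D.θ t)) ^ 2 +
        (y 0 - 2 / 5 * Real.sin (D.θ t)) ^ 2 := by
      have hcs := Real.cos_sq_add_sin_sq (D.θ t)
      set k := y 1 * Real.cos (D.θ t) + y 0 * Real.sin (D.θ t) with hk
      have hk2 : k ^ 2 ≤ (y 0) ^ 2 + (y 1) ^ 2 := by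
        have : k ^ 2 + (y 1 * Real.sin (D.θ t) - y 0 * Real.cos (D.θ t)) ^ 2 =
            ((y 0) ^ 2 + (y 1) ^ 2) * (Real.cos (D.θ t) ^ 2 + Real.sin (D.θ t) ^ 2) := by
          rw [hk]; ring
        rw [hcs, mul_one] at this
        nlinarith [sq_nonneg (y 1 * Real.sin (D.θ t) - y 0 * Real.cos (D.θ t))]
      have hk3 : k ≤ 24 / 100 := by nlinarith
      have e : (y 1 - 2 / 5 * Real.cos (D.θ t)) ^ 2 + (y 0 - 2 / 5 * Real.sin (D.θ t)) ^ 2 =
          (y 0) ^ 2 + (y 1) ^ 2 - 4 / 5 * k + 4 / 25 * (Real.cos (D.θ t) ^ 2 + Real.sin (D.θ t) ^ 2) := by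
        rw [hk]; ring
      rw [e, hcs]
      nlinarith
    have e : qA D (t, y) = (y 1 - 2 / 5 * Real.cos (D.θ t)) ^ 2 +
        (y 0 - 2 / 5 * Real.sin (D.θ t)) ^ 2 + ∑ j : Fin r, D.α j t * (y j.succ.succ.succ) ^ 2 := rfl
    rw [e]
    linarith

theorem t (hZ : ZP) (hK : KAP) (hS : SMH) (hX : XB) (hD : DISJ) : LOZ := by
  intro r D p hG hp
  obtain ⟨hZA, hZB, hU, hH⟩ := hS r D hG
  have nA : ∀ x, 0 ≤ ZA D x := fun x => (hZ.2.1 _).1
  have nB : ∀ x, 0 ≤ ZB D x := fun x => mul_nonneg (hG.β0 _) (hZ.2.1 _).1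
  have eq2 : ∀ q ∈ X D, q.2 - kap q.2 * ZA D q.1 + kap (-q.2) * ZB D q.1 = 0 := fun q hq =>
    congrArg Prod.snd (show H D q = 0 from hq)
  have hp2 := eq2 p hp
  have c2 : Tendsto (fun q : V r => q.2) (𝓝 p) (𝓝 p.2) := continuous_snd.tendsto p
  have c1 : Tendsto (fun q : V r => q.1) (𝓝 p) (𝓝 p.1) := continuous_fst.tendsto p
  have fA : ∀ h1 : kap p.2 = 1, ∀ h2 : deriv kap p.2 * ZA D p.1 = 0,
      ∀ h3 : deriv kap (-p.2) * ZB D p.1 = 0, ∀ h4 : ∀ ξ, kap (-p.2) * fderiv ℝ (ZB D) p.1 ξ = 0,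
      ∀ ξ : V r, fderiv ℝ (H D) p ξ =
      (-(Real.sin p.2 * ξ.2) + 13 / 2 * Real.exp (-(13 / 2 * U D p.1)) * fderiv ℝ (U D) p.1 ξ.1,
        ξ.2 - fderiv ℝ (ZA D) p.1 ξ.1) := by
    intro h1 h2 h3 h4 ξ
    rw [HD hK hS hG, h4, h1]
    ext
    · rfl
    · have e1 : deriv kap p.2 * ξ.2 * ZA D p.1 = 0 := by
        rw [mul_right_comm, h2, zero_mul]
      have e2 : -(deriv kap (-p.2) * ξ.2) * ZB D p.1 = 0 := by
        have : -(deriv kap (-p.2) * ξ.2) * ZB D p.1 = -(deriv kap (-p.2) * ZB D p.1) * ξ.2 := by ring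
        rw [this, h3]; simp
      simp only [e1, e2]
      ring
  have fB : ∀ h1 : kap (-p.2) = 1, ∀ h2 : deriv kap (-p.2) * ZB D p.1 = 0,
      ∀ h3 : deriv kap p.2 * ZA D p.1 = 0, ∀ h4 : ∀ ξ, kap p.2 * fderiv ℝ (ZA D) p.1 ξ = 0,
      ∀ ξ : V r, fderiv ℝ (H D) p ξ =
      (-(Real.sin p.2 * ξ.2) + 13 / 2 * Real.exp (-(13 / 2 * U D p.1)) * fderiv ℝ (U D) p.1 ξ.1,
        ξ.2 - fderiv ℝ (fun x => -ZB D x) p.1 ξ.1) := by
    intro h1 h2 h3 h4 ξ
    rw [HD hK hS hG, h4, h1]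
    have e0 : fderiv ℝ (fun x => -ZB D x) p.1 ξ.1 = -fderiv ℝ (ZB D) p.1 ξ.1 := by
      have : (fun x => -ZB D x) = -ZB D := rfl
      rw [this, fderiv_neg]
      rfl
    rw [e0]
    ext
    · rfl
    · have e1 : deriv kap p.2 * ξ.2 * ZA D p.1 = 0 := by
        rw [mul_right_comm, h3, zero_mul]
      have e2 : -(deriv kap (-p.2) * ξ.2) * ZB D p.1 = 0 := by
        have : -(deriv kap (-p.2) * ξ.2) * ZB D p.1 = -(deriv kap (-p.2) * ZB D p.1) * ξ.2 := by ring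
        rw [this, h2]; simp
      simp only [e1, e2]
      ring
  rcases lt_or_ge (2 / 5) p.2 with h | h
  · left
    have k0 : kap (-p.2) = 0 := hK.2.2.2 _ (by linarith)
    have k1 : kap p.2 = 1 := hK.2.2.1 _ (by linarith)
    refine ⟨hZA.contDiffAt, by rw [k0, k1] at hp2; linarith, ?_, fA k1 ?_ ?_ ?_⟩
    · filter_upwards [c2.eventually (lt_mem_nhds h)] with q hq hqX
      have := eq2 q hqX
      rw [hK.2.2.2 (-q.2) (by linarith), hK.2.2.1 q.2 (by linarith)] at this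
      linarith
    · rw [kap1 hK (by linarith), zero_mul]
    · rw [kap0 hK (by linarith), zero_mul]
    · intro ξ; rw [k0, zero_mul]
  rcases lt_or_ge p.2 (-(2 / 5)) with h' | h'
  · right
    have k0 : kap p.2 = 0 := hK.2.2.2 _ (by linarith)
    have k1 : kap (-p.2) = 1 := hK.2.2.1 _ (by linarith)
    refine ⟨hZB.neg.contDiffAt, by rw [k0, k1] at hp2; linarith, ?_, fB k1 ?_ ?_ ?_⟩
    · filter_upwards [c2.eventually (gt_mem_nhds h')] with q hq hqX
      have := eq2 q hqX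
      rw [hK.2.2.2 q.2 (by linarith), hK.2.2.1 (-q.2) (by linarith)] at this
      linarith
    · rw [kap1 hK (by linarith), zero_mul]
    · rw [kap0 hK (by linarith), zero_mul]
    · intro ξ; rw [k0, zero_mul]
  rcases key hZ hS hX hD hG hp (abs_le.2 ⟨by linarith, h⟩) with hz | hz
  · right
    have z0 : ZA D p.1 = 0 := hz.self_of_nhds
    have z1 : ∀ ξ, fderiv ℝ (ZA D) p.1 ξ = 0 := by
      have : ZA D =ᶠ[𝓝 p.1] fun _ => 0 := hz
      intro ξ
      rw [this.fderiv_eq]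
      simp
    have pos : ∀ q ∈ X D, ZA D q.1 = 0 → q.2 ≤ 0 ∧ kap (-q.2) = 1 ∧ q.2 = -ZB D q.1 := by
      intro q hq h0
      have e := eq2 q hq
      rw [h0, mul_zero, sub_zero] at e
      have : q.2 ≤ 0 := by
        have := mul_nonneg (hK.2.1 (-q.2)).1 (nB q.1)
        linarith
      have k := hK.2.2.1 (-q.2) (by linarith)
      rw [k] at e
      exact ⟨this, k, by linarith⟩
    obtain ⟨a1, a2, a3⟩ := pos p hp z0
    refine ⟨hZB.neg.contDiffAt, a3, ?_, fB a2 ?_ ?_ ?_⟩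
    · filter_upwards [c1.eventually hz] with q hq hqX
      exact (pos q hqX hq).2.2
    · rcases a1.lt_or_eq with h1 | h1
      · rw [kap1 hK (by linarith), zero_mul]
      · have : ZB D p.1 = 0 := by linarith
        rw [this, mul_zero]
    · rw [z0, mul_zero]
    · intro ξ; rw [z1, mul_zero]
  · left
    have z0 : ZB D p.1 = 0 := hz.self_of_nhds
    have z1 : ∀ ξ, fderiv ℝ (ZB D) p.1 ξ = 0 := by
      have : ZB D =ᶠ[𝓝 p.1] fun _ => 0 := hz
      intro ξ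
      rw [this.fderiv_eq]
      simp
    have pos : ∀ q ∈ X D, ZB D q.1 = 0 → 0 ≤ q.2 ∧ kap q.2 = 1 ∧ q.2 = ZA D q.1 := by
      intro q hq h0
      have e := eq2 q hq
      rw [h0, mul_zero, add_zero] at e
      have : 0 ≤ q.2 := by
        have := mul_nonneg (hK.2.1 q.2).1 (nA q.1)
        linarith
      have k := hK.2.2.1 q.2 this
      rw [k] at e
      exact ⟨this, k, by linarith⟩
    obtain ⟨a1, a2, a3⟩ := pos p hp z0
    refine ⟨hZA.contDiffAt, a3, ?_, fA a2 ?_ ?_ ?_⟩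
    · filter_upwards [c1.eventually hz] with q hq hqX
      exact (pos q hqX hq).2.2
    · rcases a1.lt_or_eq with h1 | h1
      · rw [kap1 hK h1, zero_mul]
      · have : ZA D p.1 = 0 := by linarith
        rw [this, mul_zero]
    · rw [z0, mul_zero]
    · intro ξ; rw [z1, mul_zero]

end Pool.Agent.Helper76.CV.LOZ
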