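import Mathlib
import Pool.Agent.Helper76.CV.Defs

/-!
# Project CV (MP_eec6f5_gt): the hypersurface is not empty

The point `t = P / 2`, `y = e_0`, `s = 0` lies on `X D` (proof by helper14).
-/

open scoped ContDiff
open Pool.Agent.Helper76.CV

namespace Pool.Agent.Helper76.CV.NE

lemma Zzero (q : ℝ) (h : 9 / 25 ≤ q) : Z q = 0 := by
  have h1 : (3 / 5 : ℝ) ≤ √(q + 1 / 10 ^ 6) := by
    apply Real.le_sqrt_of_sq_le; nlinarith
  unfold Z W
  rw [expNegInvGlue.zero_of_nonpos (by linarith)]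
  ring
lemma chizero (P t : ℝ) (hP : 0 < P) (h : P / 2 ≤ t) : chi P t = 0 := by
  unfold chi
  apply Real.smoothTransition.zero_of_nonpos
  have : 4 ≤ 8 * t / P := by rw [le_div_iff₀ hP]; linarith
  linarith
theorem t (r N : ℕ) (a : ℕ → Fin r → Bool) (b : ℕ → Bool) (d : ℕ → ℤ) (hN : 1 ≤ N) (P : ℝ) (hP : 0 < P) :
    (X (dat r N a b d P)).Nonempty := by
  let y : E (r + 3) := EuclideanSpace.single 0 1
  refine ⟨((P / 2, y), 0), ?_⟩
  have h00 : y 0 = 1 := by simp [y]
  have h0 : ∀ j : Fin (r + 3), j ≠ 0 → y j = 0 := by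
    intro j hj
    simp [y, hj]
  have h01 : y 1 = 0 := h0 1 (by intro h; have := congrArg Fin.val h; simp at this)
  have h02 : y 2 = 0 := by
    apply h0 2
    intro h
    have := congrArg Fin.val h
    rw [Fin.val_zero] at this
    have h2 : ((2 : Fin (r + 3)) : ℕ) = 2 := Fin.val_two
    omega
  have hj : ∀ j : Fin r, y j.succ.succ.succ = 0 := fun j => h0 _ (Fin.succ_ne_zero _)
  have hy : ‖y‖ = 1 := by simp [y]
  have hC : CC N P (P / 2) = 0 := by
    unfold CC
    have hN' : (1 : ℝ) ≤ N := by exact_mod_cast hN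
    rw [chizero P (P / 2) hP le_rfl, chizero P (N * P - P / 2) hP (by nlinarith)]
    rw [Finset.sum_eq_zero]
    · simp
    · intro i hi
      have hi1 : (1 : ℝ) ≤ i := by exact_mod_cast (Finset.mem_Ico.1 hi).1
      rw [chizero P (i * P - P / 2) hP (by nlinarith)]
      ring
  have hA : ZA (dat r N a b d P) (P / 2, y) = 0 := by
    unfold ZA
    apply Zzero
    unfold qA
    simp only [h00, h01, hj]
    have hs := Real.sin_le_one ((dat r N a b d P).θ (P / 2))
    have : ∑ j : Fin r, (dat r N a b d P).α j (P / 2) * (0 : ℝ) ^ 2 = 0 := by simp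
    rw [this]
    nlinarith [sq_nonneg (0 - 2 / 5 * Real.cos ((dat r N a b d P).θ (P / 2)))]
  have hB : ZB (dat r N a b d P) (P / 2, y) = 0 := by
    unfold ZB
    rw [Zzero]
    · ring
    unfold qB
    simp only [h00, h01, h02, hj]
    norm_num
  show H _ _ = 0
  unfold H U
  simp only [hA, hB, hy]
  have : (dat r N a b d P).C (P / 2) = 0 := hC
  rw [this]
  norm_num

end Pool.Agent.Helper76.CV.NE
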